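import Mathlib
import Pool.Agent.Helper65.TT.Sparse

set_option autoImplicit false

/-!
A nonzero element of the cycle space which is supported on the edges of a subgraph `H` has at
least `girth H` edges.
-/

namespace Pool.Agent.Helper27.TC

open SimpleGraph Pool.Agent.Helper65.TT Pool.Agent.Helper65.TT.Planar

variable {V : Type*}

lemma not_acyclic_of_two [Fintype V] (K : SimpleGraph V) {a b : V} (hab : K.Adj a b)
    (h : ∀ v w, K.Adj v w → ∃ w', K.Adj v w' ∧ w' ≠ w) : ¬ K.IsAcyclic := by
  classical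
  intro hK
  have key : ∀ n : ℕ, ∃ (u v : V) (p : K.Walk u v), p.IsPath ∧ p.length = n + 1 := by
    intro n
    induction n with
    | zero =>
      refine ⟨a, b, Walk.cons hab Walk.nil, ?_, rfl⟩
      rw [Walk.cons_isPath_iff]
      refine ⟨Walk.IsPath.nil, ?_⟩
      rw [Walk.support_nil, List.mem_singleton]
      exact hab.ne
    | succ n ih =>
      obtain ⟨u, v, p, hp, hl⟩ := ih
      have hnil : ¬ p.Nil := by
        intro hn
        rw [← Walk.length_eq_zero_iff] at hn
        omega
      have h1 : K.Adj v p.penultimate := (p.adj_penultimate hnil).symm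
      obtain ⟨w, hw1, hw2⟩ := h v _ h1
      have hws : w ∉ p.support := by
        intro hmem
        exact hw2 (hK.eq_penultimate_of_adj_end hp hw1 hmem)
      refine ⟨u, w, p.concat hw1, hp.concat hws hw1, ?_⟩
      rw [Walk.length_concat, hl]
  obtain ⟨u, v, p, hp, hl⟩ := key (Fintype.card V)
  have := hp.length_lt
  omega

variable (G : SimpleGraph V) [Fintype V] [DecidableEq V] [DecidableRel G.Adj]

lemma girth_le_support (H : SimpleGraph V) (g : ℕ) (hg : (g : ℕ∞) ≤ H.egirth)
    (z : G.edgeSet → ZMod 2) (hz : bd1 G z = 0) (hne : z ≠ 0)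
    (hsupp : ∀ e : G.edgeSet, z e ≠ 0 → e.1 ∈ H.edgeSet) :
    g ≤ (Finset.univ.filter fun e => z e ≠ 0).card := by
  classical
  let K : SimpleGraph V :=
    { Adj := fun u v => ∃ h : G.Adj u v, z ⟨s(u, v), h⟩ ≠ 0
      symm := ⟨by
        rintro u v ⟨h, h1⟩
        refine ⟨h.symm, ?_⟩
        have : (⟨s(v, u), h.symm⟩ : G.edgeSet) = ⟨s(u, v), h⟩ := Subtype.ext Sym2.eq_swap
        rw [this]
        exact h1⟩
      loopless := ⟨fun v hv => G.loopless.irrefl v hv.1⟩ }
  have hKH : K ≤ H := by
    rintro u v ⟨h, h1⟩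
    exact hsupp _ h1
  obtain ⟨e, he⟩ := Function.ne_iff.1 hne
  obtain ⟨e, hem⟩ := e
  induction e using Sym2.ind with
  | _ a b =>
    have hab : K.Adj a b := ⟨hem, he⟩
    have h2 : ∀ v w, K.Adj v w → ∃ w', K.Adj v w' ∧ w' ≠ w := by
      rintro v w ⟨h, h1⟩
      obtain ⟨⟨⟨v1, w'⟩, hvw⟩, k1, k2, k3⟩ := second_dart G z hz ⟨(v, w), h⟩ h1
      have k1 : v1 = v := k1
      subst k1
      refine ⟨w', ⟨hvw, k3⟩, ?_⟩
      rintro rfl
      exact k2 rfl
    have h3 := not_acyclic_of_two K hab h2
    rw [IsAcyclic] at h3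
    push Not at h3
    obtain ⟨v, c, hc⟩ := h3
    have h4 : H.egirth ≤ (c.mapLe hKH).length :=
      egirth_le_length (hc.mapLe hKH)
    have h5 : g ≤ c.length := by
      have h6 := hg.trans h4
      rw [Walk.length_map] at h6
      exact_mod_cast h6
    refine h5.trans ?_
    rw [← c.length_edges, ← List.toFinset_card_of_nodup hc.edges_nodup]
    have h7 : c.edges.toFinset ⊆
        (Finset.univ.filter fun e => z e ≠ 0).map (Function.Embedding.subtype _) := by
      intro e he
      rw [List.mem_toFinset] at he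
      have h8 := c.edges_subset_edgeSet he
      rw [Finset.mem_map]
      induction e using Sym2.ind with
      | _ x y =>
        obtain ⟨h9, h10⟩ : K.Adj x y := h8
        exact ⟨⟨s(x, y), h9⟩, Finset.mem_filter.2 ⟨Finset.mem_univ _, h10⟩, rfl⟩
    have h11 := Finset.card_le_card h7
    rw [Finset.card_map] at h11
    exact h11

end Pool.Agent.Helper27.TC
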