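import Mathlib

set_option autoImplicit false

/-!
Orientations with bounded out-degrees (Hakimi), from Hall's theorem.
-/

namespace Pool.Agent.Helper27.TC

open SimpleGraph

variable {V : Type*}

/-- The number of edges of `G` with both ends in `U`. -/
noncomputable def edgesIn (G : SimpleGraph V) (U : Set V) : ℕ :=
  {e ∈ G.edgeSet | ∀ v ∈ e, v ∈ U}.ncard

theorem exists_orientation [Fintype V] [DecidableEq V] (G : SimpleGraph V) (c : V → ℕ)
    (h : ∀ U : Finset V, edgesIn G (U : Set V) ≤ ∑ v ∈ U, c v) :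
    ∃ r : V → V → Prop, (∀ u v, r u v → G.Adj u v) ∧ (∀ u v, G.Adj u v → r u v ∨ r v u) ∧
      ∀ v, {w | r v w}.ncard ≤ c v := by
  classical
  let t : G.edgeSet → Finset (Σ v, Fin (c v)) := fun e =>
    Finset.univ.filter fun p => p.1 ∈ e.1
  have hall : ∀ s : Finset G.edgeSet, s.card ≤ (s.biUnion t).card := by
    intro s
    let U : Finset V := Finset.univ.filter fun v => ∃ e ∈ s, v ∈ e.1
    have h1 : s.biUnion t = U.sigma fun _ => Finset.univ := by
      ext ⟨v, i⟩
      simp only [Finset.mem_biUnion, Finset.mem_filter, Finset.mem_univ, true_and,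
        Finset.mem_sigma, and_true, t, U]
    have h2 : (s.biUnion t).card = ∑ v ∈ U, c v := by
      rw [h1, Finset.card_sigma]
      simp
    rw [h2]
    refine le_trans ?_ (h U)
    have h3 : s.card = ((fun e : G.edgeSet => e.1) '' (s : Set G.edgeSet)).ncard := by
      rw [Set.ncard_image_of_injective _ Subtype.val_injective, Set.ncard_coe_finset]
    rw [h3]
    apply Set.ncard_le_ncard _ (Set.toFinite _)
    rintro _ ⟨e, he, rfl⟩
    refine ⟨e.2, fun v hv => ?_⟩
    simp only [U, Finset.coe_filter, Finset.mem_univ, true_and, Set.mem_ofPred_eq]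
    exact ⟨e, he, hv⟩
  obtain ⟨f, hf1, hf2⟩ := (Finset.all_card_le_biUnion_card_iff_exists_injective t).1 hall
  have hf3 : ∀ e : G.edgeSet, (f e).1 ∈ e.1 := fun e => (Finset.mem_filter.1 (hf2 e)).2
  refine ⟨fun u v => ∃ huv : G.Adj u v, (f ⟨s(u, v), huv⟩).1 = u, ?_, ?_, ?_⟩
  · rintro u v ⟨huv, -⟩
    exact huv
  · intro u v huv
    have h1 := hf3 ⟨s(u, v), huv⟩
    rcases Sym2.mem_iff.1 h1 with h2 | h2
    · exact Or.inl ⟨huv, h2⟩
    · right
      refine ⟨huv.symm, ?_⟩
      have h3 : (⟨s(v, u), huv.symm⟩ : G.edgeSet) = ⟨s(u, v), huv⟩ := Subtype.ext Sym2.eq_swap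
      rw [h3]
      exact h2
  · intro v
    have key : ∀ w, (∃ huv : G.Adj v w, (f ⟨s(v, w), huv⟩).1 = v) →
        ∃ i : Fin (c v), ∃ huv : G.Adj v w, f ⟨s(v, w), huv⟩ = ⟨v, i⟩ := by
      rintro w ⟨huv, h1⟩
      generalize hp : f ⟨s(v, w), huv⟩ = p at h1
      obtain ⟨a, i⟩ := p
      simp only at h1
      subst h1
      exact ⟨i, huv, hp⟩
    by_cases hc : c v = 0
    · have hempty : {w | ∃ huv : G.Adj v w, (f ⟨s(v, w), huv⟩).1 = v} = ∅ := by
        ext w
        simp only [Set.mem_ofPred_eq, Set.mem_empty_iff_false, iff_false]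
        intro hw
        obtain ⟨i, -⟩ := key w hw
        rw [hc] at i
        exact i.elim0
      rw [hempty, hc, Set.ncard_empty]
    · have : Nonempty (Fin (c v)) := ⟨⟨0, Nat.pos_of_ne_zero hc⟩⟩
      choose! g hg using key
      have h4 : {w | ∃ huv : G.Adj v w, (f ⟨s(v, w), huv⟩).1 = v}.ncard
          ≤ (Set.univ : Set (Fin (c v))).ncard := by
        apply Set.ncard_le_ncard_of_injOn g
        · intro w _
          exact Set.mem_univ _
        · intro w hw w' hw' hww
          obtain ⟨huv, h1⟩ := hg w hw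
          obtain ⟨huv', h1'⟩ := hg w' hw'
          rw [hww] at h1
          have h5 := hf1 (h1.trans h1'.symm)
          have h6 : s(v, w) = s(v, w') := congrArg Subtype.val h5
          rcases Sym2.eq_iff.1 h6 with h7 | h7
          · exact h7.2
          · exact h7.2.trans h7.1
      rw [Set.ncard_univ, Nat.card_eq_fintype_card, Fintype.card_fin] at h4
      exact h4

end Pool.Agent.Helper27.TC
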