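import Mathlib
import Pool.Agent.Helper65.TT.Sparse
import Pool.Agent.Helper27.TC.Cycle
import Pool.Agent.Helper27.TC.Orient

set_option autoImplicit false

/-!
Euler's bound for the edges of a subgraph `H` of girth at least `g` of a planar graph `G`
inside a vertex set `U`.
-/

namespace Pool.Agent.Helper27.TC

open SimpleGraph Pool.Agent.Helper65.TT Pool.Agent.Helper65.TT.Planar

variable {V : Type*} (G : SimpleGraph V) (σ : Equiv.Perm G.Dart)
variable [Fintype V] [DecidableEq V] [DecidableRel G.Adj]
variable (H : SimpleGraph V) (U : Set V)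

/-- the edges under consideration -/
def PP (e : Sym2 V) : Prop := e ∈ H.edgeSet ∧ ∀ v ∈ e, v ∈ U

/-- two faces are adjacent across an edge which is not under consideration -/
def adjH (f f' : Face G σ) : Prop :=
  ∃ d : G.Dart, ¬ PP H U d.edge ∧ f = face G σ d ∧ f' = face G σ d.symm

/-- classes of faces -/
abbrev ClsH := Quotient (Relation.EqvGen.setoid (adjH G σ H U))

/-- boundary of a set of classes -/
noncomputable def bdH : (ClsH G σ H U → ZMod 2) →ₗ[ZMod 2] (G.edgeSet → ZMod 2) :=
  (bd2 G σ).comp (LinearMap.funLeft (ZMod 2) (ZMod 2)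
    (Quotient.mk (Relation.EqvGen.setoid (adjH G σ H U))))

lemma bdH_apply (t : ClsH G σ H U → ZMod 2) (d : G.Dart) :
    bdH G σ H U t ⟨d.edge, d.edge_mem⟩ =
      t (Quotient.mk _ (face G σ d)) + t (Quotient.mk _ (face G σ d.symm)) :=
  bd2_apply G σ _ d

lemma bdH_outside (t : ClsH G σ H U → ZMod 2) (d : G.Dart) (hd : ¬ PP H U d.edge) :
    bdH G σ H U t ⟨d.edge, d.edge_mem⟩ = 0 := by
  rw [bdH_apply]
  have : (Quotient.mk (Relation.EqvGen.setoid (adjH G σ H U)) (face G σ d)) =
      Quotient.mk _ (face G σ d.symm) := by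
    apply Quotient.sound
    exact Relation.EqvGen.rel _ _ ⟨d, hd, rfl, rfl⟩
  rw [this]
  exact CharTwo.add_self_eq_zero _

lemma mem_range_bdH (hex : LinearMap.range (bd2 G σ) = LinearMap.ker (bd1 G))
    (z : G.edgeSet → ZMod 2) (hz : bd1 G z = 0)
    (hout : ∀ e : G.edgeSet, ¬ PP H U e.1 → z e = 0) :
    z ∈ LinearMap.range (bdH G σ H U) := by
  have h1 : z ∈ LinearMap.range (bd2 G σ) := by
    rw [hex, LinearMap.mem_ker]; exact hz
  obtain ⟨s, hs⟩ := h1
  have hs2 : ∀ f f', adjH G σ H U f f' → s f = s f' := by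
    rintro f f' ⟨d, hd, rfl, rfl⟩
    have h2 := bd2_apply G σ s d
    rw [hs, hout ⟨d.edge, d.edge_mem⟩ hd] at h2
    exact CharTwo.add_eq_zero.1 h2.symm
  have hs3 : ∀ f f', Relation.EqvGen (adjH G σ H U) f f' → s f = s f' := by
    intro f f' h
    induction h with
    | rel x y h => exact hs2 x y h
    | refl x => rfl
    | symm x y _ ih => exact ih.symm
    | trans x y z _ _ ih1 ih2 => exact ih1.trans ih2
  refine ⟨Quotient.lift s hs3, ?_⟩
  rw [← hs]
  rfl

lemma card_PP (hHG : H ≤ G) : Nat.card {e : G.edgeSet // PP H U e.1} = edgesIn H U := by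
  rw [edgesIn, ← Nat.card_coe_set_eq]
  refine Nat.card_congr ⟨fun e => ⟨e.1.1, e.2.1, e.2.2⟩,
    fun e => ⟨⟨e.1, edgeSet_mono hHG e.2.1⟩, e.2.1, e.2.2⟩, ?_, ?_⟩
  · intro e; rfl
  · intro e; rfl

lemma card_edges_H_le (hσ : IsRotationSystem G σ) (hHG : H ≤ G)
    (hex : LinearMap.range (bd2 G σ) = LinearMap.ker (bd1 G))
    (hU : U.Nonempty) (hface : Nonempty (Face G σ)) :
    edgesIn H U + 2 ≤ U.ncard + Nat.card (ClsH G σ H U) := by
  classical
  obtain ⟨u0, hu0⟩ := hU
  let P : G.edgeSet → Prop := fun e => PP H U e.1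
  let W := {v : V // v ∈ U ∧ v ≠ u0}
  let ρ : (V → ZMod 2) →ₗ[ZMod 2] (W → ZMod 2) := LinearMap.funLeft (ZMod 2) (ZMod 2) Subtype.val
  let R : ({e // P e} → ZMod 2) →ₗ[ZMod 2] (V → ZMod 2) := (bd1 G).comp (ext0 G P)
  have hR0 : ∀ c v, v ∉ U → R c v = 0 := by
    intro c v hv
    show ∑ d : G.Dart with d.fst = v, ext0 G P c ⟨d.edge, d.edge_mem⟩ = 0
    apply Finset.sum_eq_zero
    intro d hd
    rw [Finset.mem_filter] at hd
    have : ¬ P ⟨d.edge, d.edge_mem⟩ := by
      intro h
      apply hv
      apply h.2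
      rw [← hd.2]
      exact Sym2.mem_mk_left d.fst d.snd
    show (if h : P ⟨d.edge, d.edge_mem⟩ then c ⟨_, h⟩ else 0) = 0
    rw [dif_neg this]
  have hker : LinearMap.ker (ρ.comp R) ≤ LinearMap.ker R := by
    intro c hc
    rw [LinearMap.mem_ker] at hc ⊢
    have h1 : ∀ v, v ≠ u0 → R c v = 0 := by
      intro v hv
      by_cases hvU : v ∈ U
      · exact congrFun hc ⟨v, hvU, hv⟩
      · exact hR0 c v hvU
    have h2 : R c u0 = 0 := by
      have h3 := sum_bd1 G (ext0 G P c)
      rw [Finset.sum_eq_single u0] at h3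
      · exact h3
      · intro v _ hv
        exact h1 v hv
      · intro h
        exact absurd (Finset.mem_univ _) h
    ext v
    by_cases hv : v = u0
    · rw [hv]; exact h2
    · exact h1 v hv
  have h1 := (ρ.comp R).finrank_range_add_finrank_ker
  have h2 := Submodule.finrank_mono hker
  have h3 : Module.finrank (ZMod 2) (LinearMap.range (ρ.comp R)) ≤ Fintype.card W := by
    rw [← Module.finrank_fintype_fun_eq_card (ZMod 2)]
    exact Submodule.finrank_le _
  have h4 : Fintype.card W + 1 = U.ncard := by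
    have e1 : Fintype.card W = (U \ {u0}).ncard := by
      rw [← Nat.card_coe_set_eq, ← Nat.card_eq_fintype_card]
      rfl
    rw [e1]
    exact Set.ncard_sdiff_singleton_add_one hu0 (Set.toFinite _)
  have h5 : Module.finrank (ZMod 2) ({e // P e} → ZMod 2) = edgesIn H U := by
    rw [Module.finrank_fintype_fun_eq_card, ← Nat.card_eq_fintype_card]
    exact card_PP G H U hHG
  -- ker R embeds in range bdH
  have h6 : Module.finrank (ZMod 2) (LinearMap.ker R) ≤
      Module.finrank (ZMod 2) (LinearMap.range (bdH G σ H U)) := by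
    have hmap : (LinearMap.ker R).map (ext0 G P) ≤ LinearMap.range (bdH G σ H U) := by
      rintro _ ⟨c, hc, rfl⟩
      apply mem_range_bdH G σ H U hex
      · exact hc
      · intro e he
        show (if h : P e then c ⟨_, h⟩ else 0) = 0
        rw [dif_neg he]
    have h7 := Submodule.finrank_mono hmap
    have h8 : Module.finrank (ZMod 2) ((LinearMap.ker R).map (ext0 G P)) =
        Module.finrank (ZMod 2) (LinearMap.ker R) :=
      (Submodule.equivMapOfInjective (ext0 G P) (ext0_inj G P) _).finrank_eq.symm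
    rw [h8] at h7
    exact h7
  have h9 := (bdH G σ H U).finrank_range_add_finrank_ker
  have : Fintype (ClsH G σ H U) := Fintype.ofFinite _
  rw [Module.finrank_fintype_fun_eq_card] at h9
  have h10 : 0 < Module.finrank (ZMod 2) (LinearMap.ker (bdH G σ H U)) := by
    obtain ⟨f0⟩ := hface
    have hmem : (fun _ => 1 : ClsH G σ H U → ZMod 2) ∈ LinearMap.ker (bdH G σ H U) := by
      rw [LinearMap.mem_ker]
      ext ⟨e, he⟩
      induction e using Sym2.ind with
      | _ a b =>
        exact (bdH_apply G σ H U (fun _ => 1) ⟨(a, b), he⟩).trans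
          (CharTwo.add_self_eq_zero (1 : ZMod 2))
    rw [Module.finrank_pos_iff]
    refine ⟨⟨⟨_, hmem⟩, 0, ?_⟩⟩
    intro h
    have := congrFun (congrArg Subtype.val h) (Quotient.mk _ f0)
    exact one_ne_zero this
  rw [Nat.card_eq_fintype_card]
  omega

lemma g_mul_cls_le (hσ : IsRotationSystem G σ) (hG : G.Connected) (hHG : H ≤ G)
    (g : ℕ) (hg : (g : ℕ∞) ≤ H.egirth) (h2 : 2 ≤ Nat.card (ClsH G σ H U)) :
    g * Nat.card (ClsH G σ H U) ≤ 2 * edgesIn H U := by
  classical
  have : Fintype (ClsH G σ H U) := Fintype.ofFinite _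
  rw [Nat.card_eq_fintype_card] at h2 ⊢
  let P : G.edgeSet → Prop := fun e => PP H U e.1
  let z : ClsH G σ H U → (G.edgeSet → ZMod 2) := fun q => bdH G σ H U (Pi.single q 1)
  have hz : ∀ q, g ≤ (Finset.univ.filter fun e => z q e ≠ 0).card := by
    intro q
    apply girth_le_support G H g hg
    · exact bd1_bd2 G σ hσ _
    · intro h0
      obtain ⟨q', hq'⟩ := Fintype.exists_ne_of_one_lt_card (by omega) q
      have h1 : bd2 G σ (fun f => (Pi.single q 1 : ClsH G σ H U → ZMod 2) (Quotient.mk _ f)) = 0 := h0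
      induction q using Quotient.inductionOn with
      | _ f =>
        induction q' using Quotient.inductionOn with
        | _ f' =>
          have h3 := ker_bd2 G σ hσ hG _ h1 f f'
          rw [Pi.single_eq_same, Pi.single_eq_of_ne hq'] at h3
          exact one_ne_zero h3
    · rintro ⟨e, he⟩ hze
      by_contra hcon
      apply hze
      induction e using Sym2.ind with
      | _ a b => exact bdH_outside G σ H U _ ⟨(a, b), he⟩ (fun h => hcon h.1)
  have hsum : ∑ q, (Finset.univ.filter fun e => z q e ≠ 0).card ≤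
      ∑ e : G.edgeSet, if P e then 2 else 0 := by
    simp only [Finset.card_filter]
    rw [Finset.sum_comm]
    apply Finset.sum_le_sum
    rintro ⟨e, he⟩ _
    induction e using Sym2.ind with
    | _ a b =>
      let d : G.Dart := ⟨(a, b), he⟩
      have hzd : ∀ q, z q ⟨s(a, b), he⟩ = (Pi.single q 1 : ClsH G σ H U → ZMod 2)
          (Quotient.mk _ (face G σ d)) + (Pi.single q 1 : ClsH G σ H U → ZMod 2)
          (Quotient.mk _ (face G σ d.symm)) := fun q => bdH_apply G σ H U _ d
      by_cases hP : P ⟨s(a, b), he⟩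
      · rw [if_pos hP, ← Finset.card_filter]
        have hsub : (Finset.univ.filter fun q => z q ⟨s(a, b), he⟩ ≠ 0) ⊆
            {Quotient.mk _ (face G σ d), Quotient.mk _ (face G σ d.symm)} := by
          intro q hq
          rw [Finset.mem_filter, hzd] at hq
          rw [Finset.mem_insert, Finset.mem_singleton]
          by_contra hcon
          push Not at hcon
          apply hq.2
          rw [Pi.single_eq_of_ne hcon.1.symm, Pi.single_eq_of_ne hcon.2.symm, add_zero]
        exact (Finset.card_le_card hsub).trans Finset.card_le_two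
      · rw [if_neg hP]
        apply le_of_eq
        apply Finset.sum_eq_zero
        intro q _
        rw [if_neg]
        rw [not_not]
        exact bdH_outside G σ H U _ d hP
  have hcount : ∑ e : G.edgeSet, (if P e then 2 else 0) = 2 * edgesIn H U := by
    rw [← Finset.sum_filter, Finset.sum_const, smul_eq_mul, mul_comm]
    congr 1
    rw [← card_PP G H U hHG, ← Fintype.card_subtype, ← Nat.card_eq_fintype_card]
  have h4 : ∑ _q : ClsH G σ H U, g ≤ ∑ q, (Finset.univ.filter fun e => z q e ≠ 0).card :=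
    Finset.sum_le_sum fun q _ => hz q
  rw [Finset.sum_const, Finset.card_univ, smul_eq_mul] at h4
  rw [mul_comm g]
  omega

/-- Euler's bound: if `H` is a subgraph of girth at least `g` of a connected planar graph, then
inside a non-empty vertex set `U` either `H` has fewer than `|U|` edges, or the number `m` of edges
satisfies `g (m + 2) ≤ g |U| + 2 m`. -/
theorem edge_bound (hG : G.Connected) (hpl : IsPlanar G) (hHG : H ≤ G) (g : ℕ)
    (hg : (g : ℕ∞) ≤ H.egirth) (hU : U.Nonempty) :
    edgesIn H U + 1 ≤ U.ncard ∨ g * (edgesIn H U + 2) ≤ g * U.ncard + 2 * edgesIn H U := by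
  have hU1 : 1 ≤ U.ncard := (Set.ncard_pos (Set.toFinite _)).2 hU
  rcases hpl with h | ⟨σ, hσ, he⟩
  · left
    have : edgesIn H U = 0 := by
      rw [edgesIn]
      have h1 : H = ⊥ := le_bot_iff.1 (h ▸ hHG)
      have h2 : {e ∈ H.edgeSet | ∀ v ∈ e, v ∈ U} = ∅ := by
        rw [h1]; ext e; simp
      rw [h2, Set.ncard_empty]
    omega
  · by_cases hface : Nonempty (Face G σ)
    · have hex := exact_of_euler G σ hσ hG he
      have h1 := card_edges_H_le G σ H U hσ hHG hex hU hface
      by_cases h2 : 2 ≤ Nat.card (ClsH G σ H U)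
      · have h3 := g_mul_cls_le G σ H U hσ hG hHG g hg h2
        right
        calc g * (edgesIn H U + 2) ≤ g * (U.ncard + Nat.card (ClsH G σ H U)) :=
              Nat.mul_le_mul_left _ h1
          _ = g * U.ncard + g * Nat.card (ClsH G σ H U) := Nat.mul_add _ _ _
          _ ≤ _ := by omega
      · left
        omega
    · left
      have : edgesIn H U = 0 := by
        rw [edgesIn]
        have h2 : {e ∈ H.edgeSet | ∀ v ∈ e, v ∈ U} = ∅ := by
          ext e
          simp only [Set.mem_ofPred_eq, Set.mem_empty_iff_false, iff_false, not_and]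
          intro hem
          exfalso
          induction e using Sym2.ind with
          | _ a b => exact hface ⟨face G σ ⟨(a, b), hHG hem⟩⟩
        rw [h2, Set.ncard_empty]
      omega

end Pool.Agent.Helper27.TC
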