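import Mathlib
import Pool.Agent.Helper65.TT.Defs
import Pool.Agent.Helper27.TC.Orient

set_option autoImplicit false

/-!
Definitions for the `{2,2}`-choosability problem.
-/

namespace Pool.Agent.Helper27.TC

open SimpleGraph

variable {V : Type*}

/-- `L` is a `{2,2}`-assignment: the colour set of `L` is the disjoint union of two groups of
colours such that every list contains exactly two colours of each group. -/
def IsTwoTwoAssignment {α : Type} (L : V → Finset α) : Prop :=
  ∃ C₁ C₂ : Set α, Disjoint C₁ C₂ ∧ (⋃ v, (L v : Set α)) = C₁ ∪ C₂ ∧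
    ∀ v, ((L v : Set α) ∩ C₁).ncard = 2 ∧ ((L v : Set α) ∩ C₂).ncard = 2

/-- `G` is `{2,2}`-choosable: it can be coloured from the lists of every `{2,2}`-assignment. -/
def TwoTwoChoosable (G : SimpleGraph V) : Prop :=
  ∀ (α : Type) (L : V → Finset α), IsTwoTwoAssignment L →
    ∃ f : V → α, (∀ v, f v ∈ L v) ∧ ∀ u v, G.Adj u v → f u ≠ f v

/-- A finite graph is planar: it is a subgraph, on the same vertices, of a connected graph which
has a rotation system satisfying Euler's formula (see `Helper65.TT.IsPlanar`). -/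
def Planar (G : SimpleGraph V) : Prop :=
  ∃ G' : SimpleGraph V, G ≤ G' ∧ G'.Connected ∧ Pool.Agent.Helper65.TT.IsPlanar G'

/-- The graph `G` without its edges between label `1` and label `2`. -/
def reduced (G : SimpleGraph V) (κ : V → Fin 3) : SimpleGraph V where
  Adj u v := G.Adj u v ∧ ¬ (κ u = 1 ∧ κ v = 2) ∧ ¬ (κ u = 2 ∧ κ v = 1)
  symm := ⟨fun _ _ h => ⟨h.1.symm, fun k => h.2.2 ⟨k.2, k.1⟩, fun k => h.2.1 ⟨k.2, k.1⟩⟩⟩
  loopless := ⟨fun v h => G.loopless.irrefl v h.1⟩

/-- The edges of `G` with an end in `S`. -/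
def edgesAt (G : SimpleGraph V) (S : Set V) : SimpleGraph V where
  Adj u v := G.Adj u v ∧ (u ∈ S ∨ v ∈ S)
  symm := ⟨fun _ _ h => ⟨h.1.symm, h.2.symm⟩⟩
  loopless := ⟨fun v h => G.loopless.irrefl v h.1⟩

/-- The number of neighbours of `x` in class `i` which have a neighbour in `S` other than `x`. -/
noncomputable def nShared (G : SimpleGraph V) (c : V → Fin 3) (S : Finset V) (x : V)
    (i : Fin 3) : ℕ :=
  {v | G.Adj x v ∧ c v = i ∧ ∃ y ∈ S, y ≠ x ∧ G.Adj y v}.ncard

/-- `S` is a non-empty set of vertices of class `0` in which every vertex shares at least two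
neighbours of class `1` and at least two neighbours of class `2` with other members of `S`. -/
def Thick (G : SimpleGraph V) (c : V → Fin 3) (S : Finset V) : Prop :=
  S.Nonempty ∧ ∀ x ∈ S, c x = 0 ∧ 2 ≤ nShared G c S x 1 ∧ 2 ≤ nShared G c S x 2

end Pool.Agent.Helper27.TC
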