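import Mathlib

set_option autoImplicit false

/-!
List colouring of a bipartite graph from an orientation: if `r` orients the edges of a finite
bipartite graph and every vertex has more colours than out-neighbours, then the graph can be
coloured from the lists.  (Kernels of bipartite digraphs.)
-/

namespace Pool.Agent.Helper27.TC

variable {V : Type*} [DecidableEq V]

/-- A kernel of the set `U` for the relation `r`: a subset `K` of `U` with no two related
elements, such that every other element of `U` is related to an element of `K`. -/
def IsKernel (r : V → V → Prop) (U K : Finset V) : Prop :=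
  K ⊆ U ∧ (∀ u ∈ K, ∀ v ∈ K, ¬ r u v) ∧ ∀ u ∈ U, u ∉ K → ∃ v ∈ K, r u v

lemma exists_kernel (r : V → V → Prop) (side : V → Bool) (hside : ∀ u v, r u v → side u ≠ side v)
    (U : Finset V) : ∃ K, IsKernel r U K := by
  classical
  induction U using Finset.strongInduction with
  | H U ih =>
    by_cases h : ∀ q ∈ U, side q = false → ∃ v ∈ U, r q v
    · refine ⟨U.filter fun v => side v = true, Finset.filter_subset _ _, ?_, ?_⟩
      · intro u hu v hv huv
        rw [Finset.mem_filter] at hu hv
        exact hside u v huv (hu.2.trans hv.2.symm)
      · intro u hu hnu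
        rw [Finset.mem_filter, not_and] at hnu
        have h1 : side u = false := by
          cases h2 : side u
          · rfl
          · exact absurd h2 (hnu hu)
        obtain ⟨v, hv, huv⟩ := h u hu h1
        refine ⟨v, ?_, huv⟩
        rw [Finset.mem_filter]
        refine ⟨hv, ?_⟩
        have h3 := hside u v huv
        cases h4 : side v
        · exact absurd (h1.trans h4.symm) h3
        · rfl
    · push Not at h
      obtain ⟨q, hq, -, hsink⟩ := h
      -- remove the sink `q` and its in-neighbours
      have hss : (U.filter fun v => v ≠ q ∧ ¬ r v q) ⊂ U := by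
        refine Finset.filter_ssubset.2 ⟨q, hq, ?_⟩
        simp
      obtain ⟨K, hK1, hK2, hK3⟩ := ih _ hss
      refine ⟨insert q K, ?_, ?_, ?_⟩
      · intro v hv
        rw [Finset.mem_insert] at hv
        rcases hv with rfl | hv
        · exact hq
        · exact (Finset.mem_filter.1 (hK1 hv)).1
      · intro u hu v hv
        rw [Finset.mem_insert] at hu hv
        rcases hu with rfl | hu
        · rcases hv with rfl | hv
          · exact hsink _ hq
          · exact hsink v (Finset.mem_filter.1 (hK1 hv)).1
        · rcases hv with rfl | hv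
          · exact (Finset.mem_filter.1 (hK1 hu)).2.2
          · exact hK2 u hu v hv
      · intro u hu hnu
        rw [Finset.mem_insert, not_or] at hnu
        by_cases huq : r u q
        · exact ⟨q, Finset.mem_insert_self _ _, huq⟩
        · obtain ⟨v, hv, huv⟩ := hK3 u (Finset.mem_filter.2 ⟨hu, hnu.1, huq⟩) hnu.2
          exact ⟨v, Finset.mem_insert_of_mem hv, huv⟩

/-- List colouring from an orientation, bipartite case. -/
theorem exists_colouring {α : Type*} [DecidableEq α] [Nonempty α] (r : V → V → Prop) [DecidableRel r]
    (side : V → Bool) (hside : ∀ u v, r u v → side u ≠ side v) (U : Finset V)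
    (L : V → Finset α) (hL : ∀ v ∈ U, (U.filter fun w => r v w).card < (L v).card) :
    ∃ f : V → α, (∀ v ∈ U, f v ∈ L v) ∧ ∀ u ∈ U, ∀ v ∈ U, r u v → f u ≠ f v := by
  classical
  induction hn : U.card using Nat.strong_induction_on generalizing U L with
  | _ n ih =>
    subst hn
    by_cases hU : U.Nonempty
    · obtain ⟨v0, hv0⟩ := hU
      have h1 : 0 < (L v0).card := lt_of_le_of_lt (Nat.zero_le _) (hL v0 hv0)
      obtain ⟨γ, hγ⟩ := Finset.card_pos.1 h1
      obtain ⟨K, hK1, hK2, hK3⟩ := exists_kernel r side hside (U.filter fun v => γ ∈ L v)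
      have hKne : K.Nonempty := by
        by_contra hcon
        rw [Finset.not_nonempty_iff_eq_empty] at hcon
        obtain ⟨v, hv, -⟩ := hK3 v0 (Finset.mem_filter.2 ⟨hv0, hγ⟩) (by rw [hcon]; simp)
        rw [hcon] at hv
        simp at hv
      have hKU : K ⊆ U := fun v hv => (Finset.mem_filter.1 (hK1 hv)).1
      have hKγ : ∀ v ∈ K, γ ∈ L v := fun v hv => (Finset.mem_filter.1 (hK1 hv)).2
      have hcard : (U \ K).card < U.card := by
        apply Finset.card_lt_card
        rw [Finset.ssubset_iff_of_subset Finset.sdiff_subset]
        obtain ⟨v, hv⟩ := hKne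
        exact ⟨v, hKU hv, by simp [hv]⟩
      obtain ⟨f, hf1, hf2⟩ := ih _ hcard (U \ K) (fun v => (L v).erase γ) (by
        intro v hv
        rw [Finset.mem_sdiff] at hv
        have h2 := hL v hv.1
        by_cases hγv : γ ∈ L v
        · rw [Finset.card_erase_of_mem hγv]
          obtain ⟨w, hw, hvw⟩ := hK3 v (Finset.mem_filter.2 ⟨hv.1, hγv⟩) hv.2
          have h3 : ((U \ K).filter fun w => r v w).card < (U.filter fun w => r v w).card := by
            apply Finset.card_lt_card
            rw [Finset.ssubset_iff_of_subset
              (Finset.filter_subset_filter _ Finset.sdiff_subset)]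
            refine ⟨w, Finset.mem_filter.2 ⟨hKU hw, hvw⟩, ?_⟩
            simp [hw]
          omega
        · rw [Finset.erase_eq_of_notMem hγv]
          exact lt_of_le_of_lt (Finset.card_le_card
            (Finset.filter_subset_filter _ Finset.sdiff_subset)) h2) rfl
      refine ⟨fun v => if v ∈ K then γ else f v, ?_, ?_⟩
      · intro v hv
        by_cases hvK : v ∈ K
        · simp only [hvK, if_true]
          exact hKγ v hvK
        · simp only [hvK, if_false]
          exact Finset.mem_of_mem_erase (hf1 v (Finset.mem_sdiff.2 ⟨hv, hvK⟩))
      · intro u hu v hv huv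
        by_cases huK : u ∈ K
        · by_cases hvK : v ∈ K
          · exact absurd huv (hK2 u huK v hvK)
          · simp only [huK, hvK, if_true, if_false]
            exact (Finset.ne_of_mem_erase (hf1 v (Finset.mem_sdiff.2 ⟨hv, hvK⟩))).symm
        · by_cases hvK : v ∈ K
          · simp only [huK, hvK, if_true, if_false]
            exact Finset.ne_of_mem_erase (hf1 u (Finset.mem_sdiff.2 ⟨hu, huK⟩))
          · simp only [huK, hvK, if_false]
            exact hf2 u (Finset.mem_sdiff.2 ⟨hu, huK⟩) v (Finset.mem_sdiff.2 ⟨hv, hvK⟩) huv
    · rw [Finset.not_nonempty_iff_eq_empty] at hU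
      subst hU
      obtain ⟨a⟩ := (inferInstance : Nonempty α)
      exact ⟨fun _ => a, by simp, by simp⟩

end Pool.Agent.Helper27.TC
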