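import Mathlib
import Pool.Agent.Helper27.TC.Defs
import Pool.Agent.Helper27.TC.Kernel

set_option autoImplicit false

namespace Pool.Agent.Helper27.TC

open SimpleGraph

variable {V : Type*}

/-- The mixed orientation criterion. -/
theorem general [Fintype V] (G : SimpleGraph V) (κ : V → Fin 3)
    (hbip : (reduced G κ).Colorable 2)
    (hs : ∀ U : Finset V, edgesIn (reduced G κ) (U : Set V) ≤
      ∑ v ∈ U, if κ v = 0 then 3 else 1) : TwoTwoChoosable G := by
  classical
  rintro α L ⟨C₁, C₂, hdisj, hun, hL⟩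
  by_cases hV : Nonempty V
  swap
  · exact ⟨fun v => absurd ⟨v⟩ hV, fun v => absurd ⟨v⟩ hV, fun v => absurd ⟨v⟩ hV⟩
  obtain ⟨v0⟩ := hV
  obtain ⟨r, hr1, hr2, hr3⟩ := exists_orientation (reduced G κ)
    (fun v => if κ v = 0 then 3 else 1) hs
  obtain ⟨b⟩ := hbip
  have hside : ∀ u v, r u v → (decide (b u = 0) : Bool) ≠ decide (b v = 0) := by
    intro u v huv
    have h1 : b u ≠ b v := b.valid (hr1 u v huv)
    intro h2
    rw [decide_eq_decide] at h2
    apply h1
    by_cases h3 : b u = 0
    · rw [h3, h2.1 h3]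
    · have h4 : b v ≠ 0 := fun h5 => h3 (h2.2 h5)
      omega
  let ℓ : V → Finset α := fun v =>
    if κ v = 0 then L v else if κ v = 1 then (L v).filter (· ∈ C₁) else (L v).filter (· ∈ C₂)
  have hc1 : ∀ v, ((L v).filter (· ∈ C₁)).card = 2 := by
    intro v
    rw [← (hL v).1, ← Set.ncard_coe_finset, Finset.coe_filter]
    rfl
  have hc2 : ∀ v, ((L v).filter (· ∈ C₂)).card = 2 := by
    intro v
    rw [← (hL v).2, ← Set.ncard_coe_finset, Finset.coe_filter]
    rfl
  have hc3 : ∀ v, 4 ≤ (L v).card := by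
    intro v
    have h1 : Disjoint ((L v).filter (· ∈ C₁)) ((L v).filter (· ∈ C₂)) := by
      rw [Finset.disjoint_filter]
      intro a _ h1 h2
      exact Set.disjoint_left.1 hdisj h1 h2
    have h2 : (L v).filter (· ∈ C₁) ∪ (L v).filter (· ∈ C₂) ⊆ L v :=
      Finset.union_subset (Finset.filter_subset _ _) (Finset.filter_subset _ _)
    have h3 := Finset.card_le_card h2
    rw [Finset.card_union_of_disjoint h1, hc1, hc2] at h3
    exact h3
  have hne : Nonempty α := by
    have h1 := hc3 v0
    obtain ⟨a, _⟩ := Finset.card_pos.1 (show 0 < (L v0).card by omega)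
    exact ⟨a⟩
  obtain ⟨f, hf1, hf2⟩ := exists_colouring r (fun v => decide (b v = 0)) hside Finset.univ ℓ (by
    intro v _
    have h1 : (Finset.univ.filter fun w => r v w).card = {w | r v w}.ncard := by
      rw [← Set.ncard_coe_finset, Finset.coe_filter]
      congr 1
      ext w
      simp
    rw [h1]
    refine lt_of_le_of_lt (hr3 v) ?_
    by_cases h0 : κ v = 0
    · simp only [h0, if_true, ℓ]
      have := hc3 v
      omega
    · by_cases h1 : κ v = 1
      · simp only [h0, if_false, ℓ, h1, if_true]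
        rw [if_neg (by decide), if_neg (by decide), hc1]
        decide
      · simp only [h0, h1, if_false, ℓ]
        rw [hc2]
        decide)
  have hsub : ∀ v, ℓ v ⊆ L v := by
    intro v
    simp only [ℓ]
    split_ifs
    · exact Finset.Subset.refl _
    · exact Finset.filter_subset _ _
    · exact Finset.filter_subset _ _
  have hA : ∀ v, κ v = 1 → f v ∈ C₁ := by
    intro v hv
    have h1 := hf1 v (Finset.mem_univ _)
    simp only [ℓ] at h1
    rw [if_neg (by rw [hv]; decide), if_pos hv, Finset.mem_filter] at h1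
    exact h1.2
  have hB : ∀ v, κ v = 2 → f v ∈ C₂ := by
    intro v hv
    have h1 := hf1 v (Finset.mem_univ _)
    simp only [ℓ] at h1
    rw [if_neg (by rw [hv]; decide), if_neg (by rw [hv]; decide), Finset.mem_filter] at h1
    exact h1.2
  refine ⟨f, fun v => hsub v (hf1 v (Finset.mem_univ _)), ?_⟩
  intro u v huv heq
  by_cases h1 : κ u = 1 ∧ κ v = 2
  · exact Set.disjoint_left.1 hdisj (hA u h1.1) (heq ▸ hB v h1.2)
  by_cases h2 : κ u = 2 ∧ κ v = 1
  · exact Set.disjoint_left.1 hdisj (hA v h2.2) (heq ▸ hB u h2.1)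
  have h3 : (reduced G κ).Adj u v := ⟨huv, h1, h2⟩
  rcases hr2 u v h3 with h4 | h4
  · exact hf2 u (Finset.mem_univ _) v (Finset.mem_univ _) h4 heq
  · exact hf2 v (Finset.mem_univ _) u (Finset.mem_univ _) h4 heq.symm

end Pool.Agent.Helper27.TC
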