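import Mathlib
import Pool.Agent.Helper27.TC.Defs
import Pool.Agent.Helper27.TC.Bound

set_option autoImplicit false

/-!
Sparsity of the reduced graph, by eliminating the vertices of class `0` which share at most one
neighbour of class `1` (or of class `2`) with the remaining ones.
-/

namespace Pool.Agent.Helper27.TC

open SimpleGraph

variable {V : Type*}

/-- The edges with an end `x` in `T`, where `x` keeps all its edges if its label is `0` and only
those to the class `i` if its label is `i`. -/
def RT (G : SimpleGraph V) (c : V → Fin 3) (T : Finset V) (j : V → Fin 3) : SimpleGraph V where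
  Adj u v := G.Adj u v ∧ ((u ∈ T ∧ (j u = 0 ∨ j u = c v)) ∨ (v ∈ T ∧ (j v = 0 ∨ j v = c u)))
  symm := ⟨fun _ _ h => ⟨h.1.symm, h.2.symm⟩⟩
  loopless := ⟨fun v h => G.loopless.irrefl v h.1⟩

variable [Fintype V] [DecidableEq V]

omit [DecidableEq V] in
lemma edgesIn_le_card (H : SimpleGraph V) (U : Set V) (E : Finset (Sym2 V))
    (h : ∀ e ∈ H.edgeSet, (∀ v ∈ e, v ∈ U) → e ∈ E) : edgesIn H U ≤ E.card := by
  rw [edgesIn, ← Set.ncard_coe_finset]
  exact Set.ncard_le_ncard (fun e he => h e he.1 he.2) (Set.toFinite _)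

/-- weights -/
def wt (T : Finset V) (j : V → Fin 3) (v : V) : ℕ := if v ∈ T ∧ j v = 0 then 3 else 1

lemma step_thin (G : SimpleGraph V) (c : V → Fin 3) (hc : ∀ u v, G.Adj u v → c u ≠ c v)
    (T : Finset V) (hT : ∀ x ∈ T, c x = 0) (x : V) (hx : x ∈ T) (i : Fin 3) (hi : i ≠ 0)
    (hsh : nShared G c T x i ≤ 1) (j : V → Fin 3)
    (hj : ∀ U : Finset V, edgesIn (RT G c (T.erase x) j) (U : Set V) ≤
      ∑ v ∈ U, wt (T.erase x) j v) (U : Finset V) :
    edgesIn (RT G c T (Function.update j x i)) (U : Set V) ≤
      ∑ v ∈ U, wt T (Function.update j x i) v := by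
  classical
  set j' := Function.update j x i with hj'
  have hjx : j' x = i := by rw [hj', Function.update_self]
  have hjy : ∀ y, y ≠ x → j' y = j y := fun y hy => by rw [hj', Function.update_of_ne hy]
  have hwt : ∀ v, v ≠ x → wt T j' v = wt (T.erase x) j v := by
    intro v hv
    simp only [wt, hjy v hv, Finset.mem_erase, ne_eq, hv, not_false_eq_true, true_and]
  by_cases hxU : x ∈ U
  · let D : Finset V := U.filter fun n => G.Adj x n ∧ c n = i ∧ ¬ ∃ y ∈ T, y ≠ x ∧ G.Adj y n
    let S : Set V := {n | G.Adj x n ∧ c n = i ∧ ∃ y ∈ T, y ≠ x ∧ G.Adj y n}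
    let U' : Finset V := U \ insert x D
    have hxD : x ∉ D := by
      intro h
      exact G.loopless.irrefl x (Finset.mem_filter.1 h).2.1
    have hsub : {e ∈ (RT G c T j').edgeSet | ∀ v ∈ e, v ∈ (U : Set V)} ⊆
        {e ∈ (RT G c (T.erase x) j).edgeSet | ∀ v ∈ e, v ∈ (U' : Set V)} ∪
        ((fun n => s(x, n)) '' (D : Set V) ∪ (fun n => s(x, n)) '' S) := by
      rintro e ⟨he, heU⟩
      induction e using Sym2.ind with
      | _ a b =>
        -- edges at `x`
        have key : ∀ n, n ∈ U → G.Adj x n → (c n = i) →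
            s(x, n) ∈ ((fun n => s(x, n)) '' (D : Set V) ∪ (fun n => s(x, n)) '' S) := by
          intro n hnU hxn hcn
          by_cases hS : ∃ y ∈ T, y ≠ x ∧ G.Adj y n
          · exact Or.inr ⟨n, ⟨hxn, hcn, hS⟩, rfl⟩
          · exact Or.inl ⟨n, by
              simp only [D, Finset.coe_filter, Set.mem_ofPred_eq]
              exact ⟨hnU, hxn, hcn, hS⟩, rfl⟩
        have haU : a ∈ U := heU a (Sym2.mem_mk_left a b)
        have hbU : b ∈ U := heU b (Sym2.mem_mk_right a b)
        obtain ⟨hab, hor⟩ : (RT G c T j').Adj a b := he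
        have hxc : c x = 0 := hT x hx
        have hxe : ∀ n, G.Adj x n → ((x ∈ T ∧ (j' x = 0 ∨ j' x = c n)) ∨
            (n ∈ T ∧ (j' n = 0 ∨ j' n = c x))) → c n = i := by
          intro n hxn h
          rcases h with ⟨_, h | h⟩ | ⟨h, _⟩
          · exact absurd (hjx.symm.trans h) hi
          · exact h.symm.trans hjx
          · exact absurd (hxc.trans (hT n h).symm) (hc x n hxn)
        by_cases hax : a = x
        · subst hax
          right
          exact key b hbU hab (hxe b hab hor)
        by_cases hbx : b = x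
        · subst hbx
          right
          have := key a haU hab.symm (hxe a hab.symm hor.symm)
          rwa [Sym2.eq_swap] at this
        -- neither end is `x`; neither end is in `D`
        have hnD : ∀ p q, p ≠ x → q ≠ x → G.Adj p q → (p ∈ T ∨ q ∈ T) → p ∉ D := by
          intro p q hp hq hpq h hD
          obtain ⟨_, _, h1, h2⟩ := Finset.mem_filter.1 hD
          rcases h with h | h
          · exact hi ((h1.symm.trans (hT p h)))
          · exact h2 ⟨q, h, hq, hpq.symm⟩
        have hTab : a ∈ T ∨ b ∈ T := by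
          rcases hor with ⟨h, _⟩ | ⟨h, _⟩
          · exact Or.inl h
          · exact Or.inr h
        left
        refine ⟨⟨hab, ?_⟩, ?_⟩
        · rw [hjy a hax, hjy b hbx] at hor
          rcases hor with ⟨h, h'⟩ | ⟨h, h'⟩
          · exact Or.inl ⟨Finset.mem_erase.2 ⟨hax, h⟩, h'⟩
          · exact Or.inr ⟨Finset.mem_erase.2 ⟨hbx, h⟩, h'⟩
        · intro v hv
          have hU' : ∀ p, p ∈ U → p ≠ x → p ∉ D → p ∈ (U' : Set V) := by
            intro p h1 h2 h3
            simp only [U', Finset.coe_sdiff, Finset.coe_insert, Set.mem_sdiff, Finset.mem_coe,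
              Set.mem_insert_iff, not_or]
            exact ⟨h1, h2, h3⟩
          rcases Sym2.mem_iff.1 hv with rfl | rfl
          · exact hU' _ haU hax (hnD _ b hax hbx hab hTab)
          · exact hU' _ hbU hbx (hnD _ a hbx hax hab.symm hTab.symm)
    have h1 : edgesIn (RT G c T j') (U : Set V) ≤
        edgesIn (RT G c (T.erase x) j) (U' : Set V) + (D.card + 1) := by
      refine (Set.ncard_le_ncard hsub (Set.toFinite _)).trans ?_
      refine (Set.ncard_union_le _ _).trans ?_
      refine Nat.add_le_add (le_refl _) ?_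
      refine (Set.ncard_union_le _ _).trans ?_
      refine Nat.add_le_add ?_ ?_
      · refine (Set.ncard_image_le (Set.toFinite _)).trans ?_
        rw [Set.ncard_coe_finset]
      · exact (Set.ncard_image_le (Set.toFinite _)).trans hsh
    refine h1.trans ?_
    have h2 := hj U'
    have h3 : ∑ v ∈ U, wt T j' v = ∑ v ∈ U', wt T j' v + ∑ v ∈ insert x D, wt T j' v := by
      rw [Finset.sum_sdiff]
      intro v hv
      rw [Finset.mem_insert] at hv
      rcases hv with rfl | hv
      · exact hxU
      · exact (Finset.mem_filter.1 hv).1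
    have h4 : ∑ v ∈ U', wt T j' v = ∑ v ∈ U', wt (T.erase x) j v := by
      apply Finset.sum_congr rfl
      intro v hv
      apply hwt
      rintro rfl
      simp [U'] at hv
    have h5 : ∑ v ∈ insert x D, wt T j' v = D.card + 1 := by
      rw [← Finset.card_insert_of_notMem hxD, Finset.card_eq_sum_ones]
      apply Finset.sum_congr rfl
      intro v hv
      rw [Finset.mem_insert] at hv
      rcases hv with rfl | hv
      · rw [wt, if_neg]
        rintro ⟨_, h⟩
        exact hi (hjx.symm.trans h)
      · rw [wt, if_neg]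
        rintro ⟨h, _⟩
        have h6 := (Finset.mem_filter.1 hv).2.2.1
        exact hi (h6.symm.trans (hT v h))
    rw [h3, h4, h5]
    exact Nat.add_le_add_right h2 _
  · have hsub : {e ∈ (RT G c T j').edgeSet | ∀ v ∈ e, v ∈ (U : Set V)} ⊆
        {e ∈ (RT G c (T.erase x) j).edgeSet | ∀ v ∈ e, v ∈ (U : Set V)} := by
      rintro e ⟨he, heU⟩
      refine ⟨?_, heU⟩
      induction e using Sym2.ind with
      | _ a b =>
        have haU : a ∈ U := heU a (Sym2.mem_mk_left a b)
        have hbU : b ∈ U := heU b (Sym2.mem_mk_right a b)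
        have hax : a ≠ x := by rintro rfl; exact hxU haU
        have hbx : b ≠ x := by rintro rfl; exact hxU hbU
        obtain ⟨hab, hor⟩ : (RT G c T j').Adj a b := he
        refine ⟨hab, ?_⟩
        rw [hjy a hax, hjy b hbx] at hor
        rcases hor with ⟨h, h'⟩ | ⟨h, h'⟩
        · exact Or.inl ⟨Finset.mem_erase.2 ⟨hax, h⟩, h'⟩
        · exact Or.inr ⟨Finset.mem_erase.2 ⟨hbx, h⟩, h'⟩
    refine (Set.ncard_le_ncard hsub (Set.toFinite _)).trans ?_
    refine (hj U).trans (le_of_eq ?_)
    apply Finset.sum_congr rfl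
    intro v hv
    rw [hwt v (by rintro rfl; exact hxU hv)]

end Pool.Agent.Helper27.TC
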