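import Mathlib
import Pool.Agent.Helper27.TC.Elim

set_option autoImplicit false

/-!
The sparsity estimate for a thick set, from Euler's formula.
-/

namespace Pool.Agent.Helper27.TC

open SimpleGraph

variable {V : Type*} [Fintype V] [DecidableEq V]

lemma arith (g m f r ex : ℕ) (h1 : g * (m + 2) ≤ g * (f + r) + 2 * m)
    (h2 : m ≤ g * f + ex) (h3 : 2 * ex < 3 * g) : m ≤ 3 * f + r := by
  by_contra hcon
  push Not at hcon
  obtain ⟨t, rfl⟩ := Nat.exists_eq_add_of_lt hcon
  have h4 : g * (3 * f + r + t + 1 + 2) = 3 * (g * f) + g * r + g * t + 3 * g := by ring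
  have h5 : g * (f + r) = g * f + g * r := by ring
  rw [h4, h5] at h1
  have h6 : 0 ≤ g * t := Nat.zero_le _
  omega

/-- the neighbours of `x` which have a neighbour in `T` other than `x` -/
noncomputable def shN (G : SimpleGraph V) (T : Finset V) (x : V) : Finset V := by
  classical
  exact Finset.univ.filter fun n => G.Adj x n ∧ ∃ y ∈ T, y ≠ x ∧ G.Adj y n

lemma card_shN (G : SimpleGraph V) (c : V → Fin 3) (hc : ∀ u v, G.Adj u v → c u ≠ c v)
    (T : Finset V) (x : V) (hx : c x = 0) :
    (shN G T x).card = nShared G c T x 1 + nShared G c T x 2 := by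
  classical
  have h1 : ∀ i, nShared G c T x i = ((shN G T x).filter fun n => c n = i).card := by
    intro i
    rw [nShared, ← Set.ncard_coe_finset]
    congr 1
    ext n
    simp only [shN, Finset.coe_filter, Finset.mem_filter, Finset.mem_univ, true_and,
      Set.mem_ofPred_eq]
    tauto
  rw [h1, h1, ← Finset.card_union_of_disjoint]
  · congr 1
    ext n
    rw [Finset.mem_union, Finset.mem_filter, Finset.mem_filter]
    constructor
    · intro h
      have h2 : G.Adj x n := by
        have := h
        simp only [shN, Finset.mem_filter, Finset.mem_univ, true_and] at this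
        exact this.1
      have h3 := hc x n h2
      rw [hx] at h3
      have h4 : c n = 1 ∨ c n = 2 := by omega
      rcases h4 with h4 | h4
      · exact Or.inl ⟨h, h4⟩
      · exact Or.inr ⟨h, h4⟩
    · rintro (h | h) <;> exact h.1
  · rw [Finset.disjoint_filter]
    intro n _ h1 h2
    rw [h1] at h2
    exact absurd h2 (by decide)

open Pool.Agent.Helper65.TT in
lemma thick_sparse (G G' : SimpleGraph V) (hGG : G ≤ G') (hcon : G'.Connected) (hpl : IsPlanar G')
    (c : V → Fin 3) (hc : ∀ u v, G.Adj u v → c u ≠ c v)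
    (T : Finset V) (hT : ∀ x ∈ T, c x = 0) (g : ℕ)
    (hg : (g : ℕ∞) ≤ (edgesAt G (T : Set V)).egirth)
    (hex : 2 * ∑ x ∈ T, (nShared G c T x 1 + nShared G c T x 2 - g) < 3 * g) (U : Finset V) :
    edgesIn (edgesAt G (T : Set V)) (U : Set V) ≤ ∑ v ∈ U, wt T (fun _ => 0) v := by
  classical
  set H := edgesAt G (T : Set V) with hH
  -- the vertices of `U` outside `T` with at most one neighbour in `T`
  let D : Finset V := U.filter fun n => n ∉ T ∧ ∀ y ∈ T, ∀ y' ∈ T, G.Adj y n → G.Adj y' n → y = y'
  let φ : V → V := fun n => if h : ∃ y ∈ T, G.Adj y n then h.choose else n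
  let U1 : Finset V := U \ D
  have hTT : ∀ u v, G.Adj u v → u ∈ T → v ∉ T := by
    intro u v huv hu hv
    exact hc u v huv ((hT u hu).trans (hT v hv).symm)
  have hD : ∀ y n, n ∈ D → y ∈ T → G.Adj y n → φ n = y := by
    intro y n hn hy hyn
    have h1 : ∃ y ∈ T, G.Adj y n := ⟨y, hy, hyn⟩
    have h2 : φ n = h1.choose := dif_pos h1
    rw [h2]
    exact (Finset.mem_filter.1 hn).2.2 _ h1.choose_spec.1 y hy h1.choose_spec.2 hyn
  have hsub : {e ∈ H.edgeSet | ∀ v ∈ e, v ∈ (U : Set V)} ⊆
      {e ∈ H.edgeSet | ∀ v ∈ e, v ∈ (U1 : Set V)} ∪ (fun n => s(φ n, n)) '' (D : Set V) := by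
    rintro e ⟨he, heU⟩
    induction e using Sym2.ind with
    | _ a b =>
      have haU : a ∈ U := heU a (Sym2.mem_mk_left a b)
      have hbU : b ∈ U := heU b (Sym2.mem_mk_right a b)
      obtain ⟨hab, hor⟩ : H.Adj a b := he
      by_cases haD : a ∈ D
      · right
        have hbT : b ∈ T := by
          rcases hor with h | h
          · exact absurd h (Finset.mem_filter.1 haD).2.1
          · exact h
        refine ⟨a, haD, ?_⟩
        show s(φ a, a) = s(a, b)
        rw [hD b a haD hbT hab.symm, Sym2.eq_swap]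
      by_cases hbD : b ∈ D
      · right
        have haT : a ∈ T := by
          rcases hor with h | h
          · exact h
          · exact absurd h (Finset.mem_filter.1 hbD).2.1
        refine ⟨b, hbD, ?_⟩
        show s(φ b, b) = s(a, b)
        rw [hD a b hbD haT hab]
      left
      refine ⟨⟨hab, hor⟩, ?_⟩
      intro v hv
      rcases Sym2.mem_iff.1 hv with rfl | rfl
      · exact Finset.mem_coe.2 (Finset.mem_sdiff.2 ⟨haU, haD⟩)
      · exact Finset.mem_coe.2 (Finset.mem_sdiff.2 ⟨hbU, hbD⟩)
  have h1 : edgesIn H (U : Set V) ≤ edgesIn H (U1 : Set V) + D.card := by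
    refine (Set.ncard_le_ncard hsub (Set.toFinite _)).trans ?_
    refine (Set.ncard_union_le _ _).trans (Nat.add_le_add (le_refl _) ?_)
    refine (Set.ncard_image_le (Set.toFinite _)).trans ?_
    rw [Set.ncard_coe_finset]
  have h2 : ∑ v ∈ U, wt T (fun _ => 0) v = ∑ v ∈ U1, wt T (fun _ => 0) v + D.card := by
    rw [← Finset.sum_sdiff (Finset.filter_subset _ U : D ⊆ U)]
    congr 1
    rw [Finset.card_eq_sum_ones]
    apply Finset.sum_congr rfl
    intro v hv
    rw [wt, if_neg]
    exact fun h => (Finset.mem_filter.1 hv).2.1 h.1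
  rw [h2]
  refine h1.trans (Nat.add_le_add_right ?_ _)
  -- now every vertex of `U1` outside `T` has two neighbours in `T`
  set f := (U1.filter (· ∈ T)).card with hf
  set r := (U1.filter (· ∉ T)).card with hr
  have hfr : f + r = U1.card := Finset.card_filter_add_card_filter_not _
  have h3 : ∑ v ∈ U1, wt T (fun _ => 0) v = 3 * f + r := by
    rw [← Finset.sum_filter_add_sum_filter_not U1 (· ∈ T)]
    congr 1
    · rw [hf, mul_comm, ← smul_eq_mul, ← Finset.sum_const]
      apply Finset.sum_congr rfl
      intro v hv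
      rw [wt, if_pos ⟨(Finset.mem_filter.1 hv).2, rfl⟩]
    · rw [hr, Finset.card_eq_sum_ones]
      apply Finset.sum_congr rfl
      intro v hv
      rw [wt, if_neg (fun h => (Finset.mem_filter.1 hv).2 h.1)]
  rw [h3]
  have h4 : edgesIn H (U1 : Set V) ≤ ∑ x ∈ U1.filter (· ∈ T), (shN G T x).card := by
    have hsub2 : ∀ e ∈ H.edgeSet, (∀ v ∈ e, v ∈ (U1 : Set V)) → e ∈
        (U1.filter (· ∈ T)).biUnion fun x => (shN G T x).image fun n => s(x, n) := by
      intro e he heU
      induction e using Sym2.ind with
      | _ a b =>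
        have haU : a ∈ U1 := heU a (Sym2.mem_mk_left a b)
        have hbU : b ∈ U1 := heU b (Sym2.mem_mk_right a b)
        obtain ⟨hab, hor⟩ : H.Adj a b := he
        have key : ∀ a b, a ∈ U1 → b ∈ U1 → G.Adj a b → a ∈ T →
            s(a, b) ∈ (U1.filter (· ∈ T)).biUnion fun x => (shN G T x).image fun n => s(x, n) := by
          intro a b ha hb hab haT
          have hbT : b ∉ T := hTT a b hab haT
          obtain ⟨hbU, hbD⟩ := Finset.mem_sdiff.1 hb
          have h5 : ∃ y ∈ T, y ≠ a ∧ G.Adj y b := by
            by_contra hno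
            push Not at hno
            apply hbD
            refine Finset.mem_filter.2 ⟨hbU, hbT, ?_⟩
            have h6 : ∀ y ∈ T, G.Adj y b → y = a := by
              intro y hy hyb
              by_contra hya
              exact hno y hy hya hyb
            intro y hy y' hy' k k'
            rw [h6 y hy k, h6 y' hy' k']
          rw [Finset.mem_biUnion]
          refine ⟨a, Finset.mem_filter.2 ⟨ha, haT⟩, ?_⟩
          rw [Finset.mem_image]
          refine ⟨b, ?_, rfl⟩
          simp only [shN, Finset.mem_filter, Finset.mem_univ, true_and]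
          exact ⟨hab, h5⟩
        rcases hor with h | h
        · exact key a b haU hbU hab h
        · rw [Sym2.eq_swap]
          exact key b a hbU haU hab.symm h
    refine (edgesIn_le_card H _ _ hsub2).trans ?_
    refine Finset.card_biUnion_le.trans ?_
    exact Finset.sum_le_sum fun x _ => Finset.card_image_le
  have h5 : ∑ x ∈ U1.filter (· ∈ T), (shN G T x).card ≤
      g * f + ∑ x ∈ T, (nShared G c T x 1 + nShared G c T x 2 - g) := by
    have h6 : ∑ x ∈ U1.filter (· ∈ T), (shN G T x).card ≤
        ∑ x ∈ U1.filter (· ∈ T), (g + (nShared G c T x 1 + nShared G c T x 2 - g)) := by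
      apply Finset.sum_le_sum
      intro x hx
      rw [card_shN G c hc T x (hT x (Finset.mem_filter.1 hx).2)]
      omega
    refine h6.trans ?_
    rw [Finset.sum_add_distrib, Finset.sum_const, smul_eq_mul, mul_comm g]
    refine Nat.add_le_add_left ?_ _
    apply Finset.sum_le_sum_of_subset
    intro x hx
    exact (Finset.mem_filter.1 hx).2
  by_cases hU1 : (U1 : Set V).Nonempty
  · have hHG : H ≤ G' := fun u v h => hGG h.1
    have hdec : DecidableRel G'.Adj := Classical.decRel _
    rcases edge_bound G' H (U1 : Set V) hcon hpl hHG g hg hU1 with h7 | h7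
    · rw [Set.ncard_coe_finset, ← hfr] at h7
      omega
    · rw [Set.ncard_coe_finset, ← hfr] at h7
      exact arith g _ f r _ h7 (h4.trans h5) hex
  · have h8 : U1 = ∅ := by
      rw [Finset.coe_nonempty, Finset.not_nonempty_iff_eq_empty] at hU1
      exact hU1
    have h9 := h4
    rw [h8] at h9
    simp only [Finset.filter_empty, Finset.sum_empty, nonpos_iff_eq_zero] at h9
    rw [h8, h9]
    exact Nat.zero_le _

end Pool.Agent.Helper27.TC
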