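import Mathlib
import Pool.Agent.Helper27.TC.Thick
import Pool.Agent.Helper27.TC.General

set_option autoImplicit false

namespace Pool.Agent.Helper27.TC

open SimpleGraph

variable {V : Type*} [Fintype V]

lemma sparse_all [DecidableEq V] (G : SimpleGraph V) (hG : Planar G) (c : V → Fin 3)
    (hc : ∀ u v, G.Adj u v → c u ≠ c v)
    (h : ∀ S : Finset V, Thick G c S → ∃ g : ℕ, (g : ℕ∞) ≤ (edgesAt G (S : Set V)).egirth ∧
      2 * ∑ x ∈ S, (nShared G c S x 1 + nShared G c S x 2 - g) < 3 * g)
    (T : Finset V) (hT : ∀ x ∈ T, c x = 0) :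
    ∃ j : V → Fin 3, ∀ U : Finset V, edgesIn (RT G c T j) (U : Set V) ≤ ∑ v ∈ U, wt T j v := by
  classical
  induction T using Finset.strongInduction with
  | H T ih =>
    by_cases hthin : ∃ x ∈ T, ∃ i : Fin 3, i ≠ 0 ∧ nShared G c T x i ≤ 1
    · obtain ⟨x, hx, i, hi, hsh⟩ := hthin
      obtain ⟨j, hj⟩ := ih (T.erase x) (Finset.erase_ssubset hx)
        (fun y hy => hT y (Finset.mem_of_mem_erase hy))
      exact ⟨Function.update j x i, fun U => step_thin G c hc T hT x hx i hi hsh j hj U⟩
    · push Not at hthin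
      by_cases hne : T.Nonempty
      · have hthick : Thick G c T := by
          refine ⟨hne, fun x hx => ⟨hT x hx, ?_, ?_⟩⟩
          · exact hthin x hx 1 (by decide)
          · exact hthin x hx 2 (by decide)
        obtain ⟨g, hg, hex⟩ := h T hthick
        obtain ⟨G', hGG, hcon, hpl⟩ := hG
        refine ⟨fun _ => 0, fun U => ?_⟩
        have h1 : RT G c T (fun _ => 0) = edgesAt G (T : Set V) := by
          ext u v
          simp [RT, edgesAt]
        rw [h1]
        exact thick_sparse G G' hGG hcon hpl c hc T hT g hg hex U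
      · rw [Finset.not_nonempty_iff_eq_empty] at hne
        subst hne
        refine ⟨fun _ => 0, fun U => ?_⟩
        have h1 : edgesIn (RT G c ∅ fun _ => 0) (U : Set V) = 0 := by
          have h2 : RT G c ∅ (fun _ => 0) = ⊥ := by
            ext u v
            simp [RT]
          rw [h2, edgesIn]
          simp
        rw [h1]
        exact Nat.zero_le _

/-- The planar criterion. -/
theorem planar_criterion (G : SimpleGraph V) (hG : Planar G) (c : V → Fin 3)
    (hc : ∀ u v, G.Adj u v → c u ≠ c v)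
    (h : ∀ S : Finset V, Thick G c S → ∃ g : ℕ, (g : ℕ∞) ≤ (edgesAt G (S : Set V)).egirth ∧
      2 * ∑ x ∈ S, (nShared G c S x 1 + nShared G c S x 2 - g) < 3 * g) :
    TwoTwoChoosable G := by
  classical
  let T : Finset V := Finset.univ.filter fun v => c v = 0
  have hT : ∀ x ∈ T, c x = 0 := fun x hx => (Finset.mem_filter.1 hx).2
  have hT' : ∀ x, x ∈ T ↔ c x = 0 := fun x =>
    ⟨hT x, fun hx => Finset.mem_filter.2 ⟨Finset.mem_univ _, hx⟩⟩
  obtain ⟨j, hj⟩ := sparse_all G hG c hc h T hT
  let κ : V → Fin 3 := fun v => if c v = 0 then j v else c v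
  have hκ0 : ∀ v, c v = 0 → κ v = j v := fun v hv => if_pos hv
  have hκ1 : ∀ v, c v ≠ 0 → κ v = c v := fun v hv => if_neg hv
  have hle : reduced G κ ≤ RT G c T j := by
    rintro u v ⟨huv, h1, h2⟩
    refine ⟨huv, ?_⟩
    have h3 := hc u v huv
    by_cases hu : c u = 0
    · left
      have hv : c v ≠ 0 := fun hv => h3 (hu.trans hv.symm)
      rw [hκ0 u hu, hκ1 v hv] at h1 h2
      refine ⟨(hT' u).2 hu, ?_⟩
      clear h3
      generalize j u = a at h1 h2 ⊢
      generalize c v = b at h1 h2 hv ⊢
      revert h1 h2 hv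
      revert a b
      decide
    · by_cases hv : c v = 0
      · right
        rw [hκ0 v hv, hκ1 u hu] at h1 h2
        refine ⟨(hT' v).2 hv, ?_⟩
        clear h3
        generalize j v = a at h1 h2 ⊢
        generalize c u = b at h1 h2 hu ⊢
        revert h1 h2 hu
        revert a b
        decide
      · exfalso
        rw [hκ1 u hu, hκ1 v hv] at h1 h2
        generalize c u = a at h1 h2 h3 hu
        generalize c v = b at h1 h2 h3 hv
        revert h1 h2 h3 hu hv
        revert a b
        decide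
  apply general G κ
  · refine ⟨Coloring.mk (fun v => if c v = 0 then 0 else 1) ?_⟩
    intro u v huv
    obtain ⟨h1, h2⟩ := hle huv
    have h3 := hc u v h1
    rcases h2 with ⟨h4, _⟩ | ⟨h4, _⟩
    · rw [if_pos ((hT' u).1 h4), if_neg (fun h5 => h3 (((hT' u).1 h4).trans h5.symm))]
      decide
    · rw [if_pos ((hT' v).1 h4), if_neg (fun h5 => h3 (h5.trans ((hT' v).1 h4).symm))]
      decide
  · intro U
    have h1 : edgesIn (reduced G κ) (U : Set V) ≤ edgesIn (RT G c T j) (U : Set V) := by
      apply Set.ncard_le_ncard _ (Set.toFinite _)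
      rintro e ⟨he, heU⟩
      exact ⟨edgeSet_mono hle he, heU⟩
    refine (h1.trans (hj U)).trans (le_of_eq ?_)
    apply Finset.sum_congr rfl
    intro v _
    rw [wt]
    by_cases hv : c v = 0
    · rw [hκ0 v hv]
      simp only [(hT' v).2 hv, true_and]
    · rw [hκ1 v hv, if_neg (fun h2 => hv ((hT' v).1 h2.1)), if_neg hv]

omit [Fintype V] in
lemma edgesAt_mono (G : SimpleGraph V) {S S' : Set V} (h : S ⊆ S') :
    edgesAt G S ≤ edgesAt G S' := by
  rintro u v ⟨h1, h2⟩
  exact ⟨h1, h2.imp (fun k => h k) (fun k => h k)⟩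

/-- Degrees in class `0` against the girth of the graph of the edges at class `0`. -/
theorem degree_girth (G : SimpleGraph V) (hG : Planar G) (c : V → Fin 3)
    (hc : ∀ u v, G.Adj u v → c u ≠ c v) (g : ℕ)
    (hg : (g : ℕ∞) ≤ (edgesAt G {v | c v = 0}).egirth)
    (hex : 2 * ∑ x with c x = 0, ((G.neighborSet x).ncard - g) < 3 * g) :
    TwoTwoChoosable G := by
  classical
  apply planar_criterion G hG c hc
  intro S hS
  refine ⟨g, hg.trans (egirth_anti (edgesAt_mono G fun v hv => (hS.2 v hv).1)), ?_⟩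
  refine lt_of_le_of_lt (Nat.mul_le_mul_left 2 ?_) hex
  have h2 : S ⊆ Finset.univ.filter fun v => c v = 0 := fun v hv =>
    Finset.mem_filter.2 ⟨Finset.mem_univ _, (hS.2 v hv).1⟩
  refine le_trans ?_ (Finset.sum_le_sum_of_subset h2)
  apply Finset.sum_le_sum
  intro x hx
  apply Nat.sub_le_sub_right
  rw [← card_shN G c hc S x (hS.2 x hx).1, ← Set.ncard_coe_finset]
  apply Set.ncard_le_ncard _ (Set.toFinite _)
  intro n hn
  simp only [shN, Finset.coe_filter, Finset.mem_univ, true_and, Set.mem_ofPred_eq] at hn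
  exact hn.1

end Pool.Agent.Helper27.TC
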