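import Mathlib
import Pool.Agent.Helper27.TC.Main

set_option autoImplicit false

namespace Pool.Agent.Helper27.TC

open SimpleGraph

variable {V : Type*}

lemma four_le_egirth (H : SimpleGraph V) (h : H.Colorable 2) : (4 : ℕ∞) ≤ H.egirth := by
  rw [le_egirth]
  intro a w hw
  have h1 : Even w.length := (two_colorable_iff_forall_loop_even.1 h) a w
  have h2 := hw.three_le_length
  have h3 : 4 ≤ w.length := by
    rcases h1 with ⟨k, hk⟩
    omega
  exact_mod_cast h3

lemma edgesAt_colorable (G : SimpleGraph V) (c : V → Fin 3)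
    (hc : ∀ u v, G.Adj u v → c u ≠ c v) (S : Set V) (hS : ∀ v ∈ S, c v = 0) :
    (edgesAt G S).Colorable 2 := by
  classical
  refine ⟨Coloring.mk (fun v => if c v = 0 then 0 else 1) ?_⟩
  rintro u v ⟨h1, h2⟩
  have h3 := hc u v h1
  rcases h2 with h4 | h4
  · rw [if_pos (hS u h4), if_neg (fun h5 => h3 ((hS u h4).trans h5.symm))]
    decide
  · rw [if_pos (hS v h4), if_neg (fun h5 => h3 (h5.trans (hS v h4).symm))]
    decide

variable [Fintype V]

/-- A class of degree at most four, up to a total excess of five. -/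
theorem degree_four (G : SimpleGraph V) (hG : Planar G) (c : V → Fin 3)
    (hc : ∀ u v, G.Adj u v → c u ≠ c v)
    (hex : ∑ x with c x = 0, ((G.neighborSet x).ncard - 4) ≤ 5) :
    TwoTwoChoosable G := by
  apply degree_girth G hG c hc 4
  · exact_mod_cast four_le_egirth _ (edgesAt_colorable G c hc _ fun v hv => hv)
  · omega

/-- There is no thick set if all cycles alternating between class `0` and its complement have
length at least eight. -/
lemma not_thick [DecidableEq V] (G : SimpleGraph V) (hG : Planar G) (c : V → Fin 3)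
    (hc : ∀ u v, G.Adj u v → c u ≠ c v) (S : Finset V)
    (hg : (8 : ℕ∞) ≤ (edgesAt G (S : Set V)).egirth) : ¬ Thick G c S := by
  classical
  rintro ⟨hne, hS⟩
  obtain ⟨G', hGG, hcon, hpl⟩ := hG
  set H := edgesAt G (S : Set V) with hH
  let N : Finset V := S.biUnion fun x => shN G S x
  have hsh : ∀ x n, n ∈ shN G S x ↔ G.Adj x n ∧ ∃ y ∈ S, y ≠ x ∧ G.Adj y n := by
    intro x n
    simp only [shN, Finset.mem_filter, Finset.mem_univ, true_and]
  have hcN : ∀ n ∈ N, c n ≠ 0 := by
    intro n hn
    rw [Finset.mem_biUnion] at hn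
    obtain ⟨x, hx, hxn⟩ := hn
    have h1 := hc x n ((hsh x n).1 hxn).1
    rw [(hS x hx).1] at h1
    exact h1.symm
  have hdisj : Disjoint S N := by
    rw [Finset.disjoint_left]
    intro x hx hxN
    exact hcN x hxN (hS x hx).1
  let P : Finset (Σ _ : V, V) := S.sigma fun x => shN G S x
  have hP : P.card = ∑ x ∈ S, (shN G S x).card := Finset.card_sigma _ _
  have h4 : 4 * S.card ≤ P.card := by
    rw [hP, mul_comm, ← smul_eq_mul, ← Finset.sum_const]
    apply Finset.sum_le_sum
    intro x hx
    obtain ⟨h0, h1, h2⟩ := hS x hx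
    rw [card_shN G c hc S x h0]
    omega
  have h2 : 2 * N.card ≤ P.card := by
    have h5 : P.card = ∑ n ∈ N, (S.filter fun x => n ∈ shN G S x).card := by
      rw [hP]
      have h6 : ∀ x ∈ S, (shN G S x).card = ∑ n ∈ N, if n ∈ shN G S x then 1 else 0 := by
        intro x hx
        rw [← Finset.card_filter]
        congr 1
        ext n
        rw [Finset.mem_filter]
        exact ⟨fun h => ⟨Finset.mem_biUnion.2 ⟨x, hx, h⟩, h⟩, fun h => h.2⟩
      rw [Finset.sum_congr rfl h6, Finset.sum_comm]
      apply Finset.sum_congr rfl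
      intro n _
      rw [Finset.card_filter]
    rw [h5, mul_comm, ← smul_eq_mul, ← Finset.sum_const]
    apply Finset.sum_le_sum
    intro n hn
    rw [Finset.mem_biUnion] at hn
    obtain ⟨x, hx, hxn⟩ := hn
    obtain ⟨h7, y, hy, hyx, hyn⟩ := (hsh x n).1 hxn
    have h8 : ({x, y} : Finset V) ⊆ S.filter fun x => n ∈ shN G S x := by
      intro v hv
      rw [Finset.mem_insert, Finset.mem_singleton] at hv
      rw [Finset.mem_filter]
      rcases hv with rfl | rfl
      · exact ⟨hx, hxn⟩
      · exact ⟨hy, (hsh v n).2 ⟨hyn, x, hx, hyx.symm, h7⟩⟩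
    have h9 := Finset.card_le_card h8
    rw [Finset.card_pair hyx.symm] at h9
    exact h9
  have he : P.card ≤ edgesIn H ((S ∪ N : Finset V) : Set V) := by
    have h10 : P.card = ((fun p : (Σ _ : V, V) => s(p.1, p.2)) '' (P : Set (Σ _ : V, V))).ncard := by
      rw [Set.ncard_image_of_injOn, Set.ncard_coe_finset]
      rintro ⟨x, n⟩ hp ⟨x', n'⟩ hp' heq
      have h11 := Finset.mem_sigma.1 (Finset.mem_coe.1 hp)
      have h12 := Finset.mem_sigma.1 (Finset.mem_coe.1 hp')
      rcases Sym2.eq_iff.1 heq with ⟨h13, h14⟩ | ⟨h13, h14⟩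
      · simp only at h13 h14
        subst h13 h14
        rfl
      · exfalso
        simp only at h13 h14
        apply hcN n' (Finset.mem_biUnion.2 ⟨x', h12.1, h12.2⟩)
        rw [← h13]
        exact (hS x h11.1).1
    rw [h10]
    apply Set.ncard_le_ncard _ (Set.toFinite _)
    rintro _ ⟨⟨x, n⟩, hp, rfl⟩
    obtain ⟨h11, h12⟩ := Finset.mem_sigma.1 (Finset.mem_coe.1 hp)
    simp only at h11 h12
    refine ⟨⟨((hsh x n).1 h12).1, Or.inl h11⟩, ?_⟩
    intro v hv
    rcases Sym2.mem_iff.1 hv with rfl | rfl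
    · exact Finset.mem_coe.2 (Finset.mem_union_left _ h11)
    · exact Finset.mem_coe.2 (Finset.mem_union_right _ (Finset.mem_biUnion.2 ⟨x, h11, h12⟩))
  have hcard : (S ∪ N).card = S.card + N.card := Finset.card_union_of_disjoint hdisj
  have hpos : 0 < S.card := Finset.card_pos.2 hne
  have hHG : H ≤ G' := fun u v h => hGG h.1
  have hdec : DecidableRel G'.Adj := Classical.decRel _
  have hcoe : (((S ∪ N : Finset V) : Set V)).ncard = S.card + N.card := by
    rw [Set.ncard_coe_finset, hcard]
  rcases edge_bound G' H ((S ∪ N : Finset V) : Set V) hcon hpl hHG 8 hg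
    (by rw [Finset.coe_nonempty]; exact hne.mono Finset.subset_union_left) with h7 | h7
  · rw [hcoe] at h7
    omega
  · rw [hcoe] at h7
    omega

/-- Sparse classes. -/
theorem girth_eight (G : SimpleGraph V) (hG : Planar G) (c : V → Fin 3)
    (hc : ∀ u v, G.Adj u v → c u ≠ c v)
    (hg : (8 : ℕ∞) ≤ (edgesAt G {v | c v = 0}).egirth) : TwoTwoChoosable G := by
  classical
  apply planar_criterion G hG c hc
  intro S hS
  exact absurd hS (not_thick G hG c hc S
    (hg.trans (egirth_anti (edgesAt_mono G fun v hv => (hS.2 v hv).1))))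

end Pool.Agent.Helper27.TC
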