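import Mathlib
import Pool.Agent.Helper27.TC.Thick
import Pool.Agent.Helper27.TC.General

set_option autoImplicit false

/-!
Plane graphs: vertices of degree four around which the classes alternate are free.
-/

namespace Pool.Agent.Helper27.TC

open SimpleGraph Pool.Agent.Helper65.TT Pool.Agent.Helper65.TT.Planar

variable {V : Type*}

/-- A free vertex: it has class `0` and degree at most four, and the classes of its neighbours
alternate around it. -/
def IsFree (G : SimpleGraph V) (σ : Equiv.Perm G.Dart) (c : V → Fin 3) (x : V) : Prop :=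
  c x = 0 ∧ (G.neighborSet x).ncard ≤ 4 ∧ ∀ d : G.Dart, d.fst = x → c (σ d).snd ≠ c d.snd

/-- the number of neighbours of `y` in class `i` with another neighbour in `T` of rank at least
the rank of `y` -/
noncomputable def cnt (G : SimpleGraph V) (c : V → Fin 3) (T : Finset V) (h : V → ℕ) (y : V)
    (i : Fin 3) : ℕ :=
  {n | G.Adj y n ∧ c n = i ∧ ∃ y' ∈ T, y' ≠ y ∧ h y ≤ h y' ∧ G.Adj y' n}.ncard

lemma elim [Fintype V] [DecidableEq V] (G : SimpleGraph V) (c : V → Fin 3) (w : V → ℕ) (k : ℕ)
    (T : Finset V) (hT : ∀ x ∈ T, c x = 0)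
    (hthick : ∀ S ⊆ T, Thick G c S → ∑ x ∈ S, w x ≤ k) :
    ∃ (j : V → Fin 3) (h : V → ℕ), (∀ y ∈ T, j y ≠ 0 → cnt G c T h y (j y) ≤ 1) ∧
      (∀ y ∈ T, j y = 0 → ∀ y' ∈ T, h y' ≤ h y) ∧ ∑ y ∈ T.filter (fun y => j y = 0), w y ≤ k := by
  classical
  induction T using Finset.strongInduction with
  | H T ih =>
    by_cases hthin : ∃ x ∈ T, ∃ i : Fin 3, i ≠ 0 ∧ nShared G c T x i ≤ 1
    · obtain ⟨x, hx, i, hi, hsh⟩ := hthin
      obtain ⟨j, h, h1, h2, h3⟩ := ih (T.erase x) (Finset.erase_ssubset hx)
        (fun y hy => hT y (Finset.mem_of_mem_erase hy))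
        (fun S hS => hthick S (hS.trans (Finset.erase_subset _ _)))
      let j' := Function.update j x i
      let h' : V → ℕ := fun y => if y = x then 0 else h y + 1
      have hjx : j' x = i := Function.update_self _ _ _
      have hjy : ∀ y, y ≠ x → j' y = j y := fun y hy => Function.update_of_ne hy _ _
      have hhx : h' x = 0 := if_pos rfl
      have hhy : ∀ y, y ≠ x → h' y = h y + 1 := fun y hy => if_neg hy
      refine ⟨j', h', ?_, ?_, ?_⟩
      · intro y hy hjy0
        by_cases hyx : y = x
        · subst hyx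
          rw [hjx]
          refine le_trans ?_ hsh
          apply Set.ncard_le_ncard _ (Set.toFinite _)
          rintro n ⟨k1, k2, y', hy', k3, _, k4⟩
          exact ⟨k1, k2, y', hy', k3, k4⟩
        · rw [hjy y hyx] at hjy0 ⊢
          refine le_trans ?_ (h1 y (Finset.mem_erase.2 ⟨hyx, hy⟩) hjy0)
          apply Set.ncard_le_ncard _ (Set.toFinite _)
          rintro n ⟨k1, k2, y', hy', k3, k5, k4⟩
          have hy'x : y' ≠ x := by
            rintro rfl
            rw [hhx, hhy y hyx] at k5
            omega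
          rw [hhy y hyx, hhy y' hy'x] at k5
          exact ⟨k1, k2, y', Finset.mem_erase.2 ⟨hy'x, hy'⟩, k3, by omega, k4⟩
      · intro y hy hjy0 y' hy'
        have hyx : y ≠ x := by
          rintro rfl
          exact hi (hjx.symm.trans hjy0)
        rw [hjy y hyx] at hjy0
        rw [hhy y hyx]
        by_cases hy'x : y' = x
        · rw [hy'x, hhx]
          exact Nat.zero_le _
        · rw [hhy y' hy'x]
          have := h2 y (Finset.mem_erase.2 ⟨hyx, hy⟩) hjy0 y' (Finset.mem_erase.2 ⟨hy'x, hy'⟩)
          omega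
      · refine le_trans (Finset.sum_le_sum_of_subset ?_) h3
        intro y hy
        obtain ⟨k1, k2⟩ := Finset.mem_filter.1 hy
        have hyx : y ≠ x := by
          rintro rfl
          exact hi (hjx.symm.trans k2)
        rw [hjy y hyx] at k2
        exact Finset.mem_filter.2 ⟨Finset.mem_erase.2 ⟨hyx, k1⟩, k2⟩
    · push Not at hthin
      refine ⟨fun _ => 0, fun _ => 0, fun y _ hy => absurd rfl hy, fun _ _ _ _ _ => le_refl _, ?_⟩
      by_cases hne : T.Nonempty
      · have hthick' : Thick G c T := by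
          refine ⟨hne, fun x hx => ⟨hT x hx, ?_, ?_⟩⟩
          · exact hthin x hx 1 (by decide)
          · exact hthin x hx 2 (by decide)
        refine le_trans (Finset.sum_le_sum_of_subset (Finset.filter_subset _ _))
          (hthick T (Finset.Subset.refl _) hthick')
      · rw [Finset.not_nonempty_iff_eq_empty] at hne
        subst hne
        simp

section plane

variable (G : SimpleGraph V) (σ : Equiv.Perm G.Dart)
variable [Fintype V] [DecidableEq V] [DecidableRel G.Adj]

/-- the sum of a boundary over a set of vertices counts the edges leaving it -/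
lemma sum_bd1_on (M : Finset V) (z : G.edgeSet → ZMod 2) :
    ∑ v ∈ M, bd1 G z v = ∑ d : G.Dart with d.fst ∈ M ∧ d.snd ∉ M, z ⟨d.edge, d.edge_mem⟩ := by
  have h1 : ∑ v ∈ M, bd1 G z v = ∑ d : G.Dart with d.fst ∈ M, z ⟨d.edge, d.edge_mem⟩ := by
    show ∑ v ∈ M, ∑ d : G.Dart with d.fst = v, z ⟨d.edge, d.edge_mem⟩ = _
    rw [← Finset.sum_fiberwise_of_maps_to (s := Finset.univ.filter fun d : G.Dart => d.fst ∈ M)
      (t := M) (g := fun d => d.fst) (fun d hd => (Finset.mem_filter.1 hd).2)]
    apply Finset.sum_congr rfl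
    intro v hv
    apply Finset.sum_congr _ (fun _ _ => rfl)
    ext d
    simp only [Finset.mem_filter, Finset.mem_univ, true_and]
    constructor
    · intro h
      exact ⟨h ▸ hv, h⟩
    · exact fun h => h.2
  rw [h1]
  have h2 : (Finset.univ.filter fun d : G.Dart => d.fst ∈ M) =
      (Finset.univ.filter fun d : G.Dart => d.fst ∈ M ∧ d.snd ∈ M) ∪
      (Finset.univ.filter fun d : G.Dart => d.fst ∈ M ∧ d.snd ∉ M) := by
    ext d
    simp only [Finset.mem_filter, Finset.mem_univ, true_and, Finset.mem_union]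
    tauto
  rw [h2, Finset.sum_union]
  · have h3 : ∑ d : G.Dart with d.fst ∈ M ∧ d.snd ∈ M, z ⟨d.edge, d.edge_mem⟩ = 0 := by
      refine Finset.sum_involution (fun d _ => d.symm) ?_ ?_ ?_ ?_
      · intro d _
        have : (⟨d.symm.edge, d.symm.edge_mem⟩ : G.edgeSet) = ⟨d.edge, d.edge_mem⟩ :=
          Subtype.ext d.edge_symm
        rw [this]
        exact CharTwo.add_self_eq_zero _
      · intro d _ _
        exact d.symm_ne
      · intro d hd
        obtain ⟨_, k1, k2⟩ := Finset.mem_filter.1 hd
        exact Finset.mem_filter.2 ⟨Finset.mem_univ _, k2, k1⟩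
      · intro d _
        exact d.symm_symm
    rw [h3, zero_add]
  · rw [Finset.disjoint_filter]
    rintro d _ ⟨_, k1⟩ ⟨_, k2⟩
    exact k2 k1

end plane

end Pool.Agent.Helper27.TC
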