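import Mathlib
import Pool.Agent.Helper27.TC.Free

set_option autoImplicit false

/-!
Every class of faces has at least two corners at vertices of label `0`.
-/

namespace Pool.Agent.Helper27.TC

open SimpleGraph Pool.Agent.Helper65.TT Pool.Agent.Helper65.TT.Planar

variable {V : Type*}

/-- the data produced by the elimination -/
structure Lab (G : SimpleGraph V) (c κ : V → Fin 3) (W : Finset V) (h : V → ℕ) : Prop where
  hc : ∀ u v, G.Adj u v → c u ≠ c v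
  hW : ∀ x ∈ W, c x = 0
  hκ : ∀ v, c v ≠ 0 → κ v = c v
  hκW : ∀ x, c x = 0 → κ x ≠ 0 → x ∈ W
  hcnt : ∀ y ∈ W, κ y ≠ 0 → cnt G c W h y (κ y) ≤ 1
  hmax : ∀ y ∈ W, κ y = 0 → ∀ y' ∈ W, h y' ≤ h y

/-- an edge of the reduced graph has exactly one end in class `0` -/
lemma Lab.other {G : SimpleGraph V} {c κ : V → Fin 3} {W : Finset V} {h : V → ℕ}
    (D : Lab G c κ W h) {u v : V} (huv : (reduced G κ).Adj u v) (hu : c u ≠ 0) : c v = 0 := by
  by_contra hv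
  obtain ⟨h1, h2, h3⟩ := huv
  have h4 := D.hc u v h1
  rw [D.hκ u hu, D.hκ v hv] at h2 h3
  clear D h1
  generalize c u = a at h2 h3 h4 hu
  generalize c v = b at h2 h3 h4 hv
  revert h2 h3 h4 hu hv
  revert a b
  decide

lemma Lab.other' {G : SimpleGraph V} {c κ : V → Fin 3} {W : Finset V} {h : V → ℕ}
    (D : Lab G c κ W h) {u v : V} (huv : (reduced G κ).Adj u v) (hu : c u = 0) : c v ≠ 0 := by
  intro hv
  exact D.hc u v huv.1 (hu.trans hv.symm)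

lemma Lab.label {G : SimpleGraph V} {c κ : V → Fin 3} {W : Finset V} {h : V → ℕ}
    (D : Lab G c κ W h) {u v : V} (huv : (reduced G κ).Adj u v) (hu : c u = 0) (hκu : κ u ≠ 0) :
    c v = κ u := by
  have hv := D.other' huv hu
  obtain ⟨h1, h2, h3⟩ := huv
  rw [D.hκ v hv] at h2 h3
  clear D h1
  generalize κ u = a at h2 h3 hκu
  generalize c v = b at h2 h3 hv
  revert h2 h3 hκu hv
  revert a b
  decide

variable (G : SimpleGraph V) (σ : Equiv.Perm G.Dart)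
variable [Fintype V] [DecidableEq V] [DecidableRel G.Adj]

/-- there is no nonzero cycle with at most one vertex of label `0`, if that vertex is in `W` -/
lemma noz {c κ : V → Fin 3} {W : Finset V} {h : V → ℕ} (D : Lab G c κ W h)
    (z : G.edgeSet → ZMod 2) (hz : bd1 G z = 0) (hne : z ≠ 0)
    (hsupp : ∀ e : G.edgeSet, z e ≠ 0 → e.1 ∈ (reduced G κ).edgeSet) (x0 : V)
    (hx0 : ∀ y n (hyn : G.Adj y n), z ⟨s(y, n), hyn⟩ ≠ 0 → c y = 0 → κ y = 0 →
      y = x0 ∧ x0 ∈ W) : False := by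
  classical
  have hadj : ∀ y n (hyn : G.Adj y n), z ⟨s(y, n), hyn⟩ ≠ 0 → (reduced G κ).Adj y n :=
    fun y n hyn hzz => hsupp _ hzz
  have hswap : ∀ y n (hyn : G.Adj y n), z ⟨s(n, y), hyn.symm⟩ = z ⟨s(y, n), hyn⟩ := by
    intro y n hyn
    congr 1
    exact Subtype.ext Sym2.eq_swap
  -- a second edge at a vertex
  have hsec : ∀ y n (hyn : G.Adj y n), z ⟨s(y, n), hyn⟩ ≠ 0 →
      ∃ n', ∃ hyn' : G.Adj y n', n' ≠ n ∧ z ⟨s(y, n'), hyn'⟩ ≠ 0 := by
    intro y n hyn hzz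
    obtain ⟨⟨⟨y1, n'⟩, hyn'⟩, k1, k2, k3⟩ := second_dart G z hz ⟨(y, n), hyn⟩ hzz
    have k1 : y1 = y := k1
    subst k1
    refine ⟨n', hyn', ?_, k3⟩
    rintro rfl
    exact k2 rfl
  let Y : Finset V := Finset.univ.filter fun y => c y = 0 ∧ ∃ n, ∃ hyn : G.Adj y n,
    z ⟨s(y, n), hyn⟩ ≠ 0
  have hYmem : ∀ y, y ∈ Y ↔ c y = 0 ∧ ∃ n, ∃ hyn : G.Adj y n, z ⟨s(y, n), hyn⟩ ≠ 0 := by
    intro y
    simp [Y]
  have hYW : ∀ y ∈ Y, y ∈ W := by
    intro y hy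
    obtain ⟨hy0, n, hyn, hzz⟩ := (hYmem y).1 hy
    by_cases hκy : κ y = 0
    · obtain ⟨k1, k2⟩ := hx0 y n hyn hzz hy0 hκy
      rw [k1]
      exact k2
    · exact D.hκW y hy0 hκy
  -- from an edge at `y` to another vertex of `Y`
  have hstep : ∀ y n (hyn : G.Adj y n), z ⟨s(y, n), hyn⟩ ≠ 0 → c y = 0 →
      ∃ y' ∈ Y, y' ≠ y ∧ G.Adj y' n := by
    intro y n hyn hzz hy0
    obtain ⟨y', hny', hne', hzz'⟩ := hsec n y hyn.symm (by rw [hswap y n hyn]; exact hzz)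
    have hn0 : c n ≠ 0 := D.other' (hadj y n hyn hzz) hy0
    have hy'0 : c y' = 0 := D.other (hadj n y' hny' hzz') hn0
    refine ⟨y', (hYmem y').2 ⟨hy'0, n, hny'.symm, ?_⟩, hne', hny'.symm⟩
    rw [hswap n y' hny']
    exact hzz'
  by_cases hlab : ∃ y ∈ Y, κ y ≠ 0
  · -- minimal rank
    obtain ⟨y0, hy0, hκy0⟩ := hlab
    obtain ⟨y, hy, hmin⟩ := Finset.exists_min_image (Y.filter fun y => κ y ≠ 0) h
      ⟨y0, Finset.mem_filter.2 ⟨hy0, hκy0⟩⟩
    obtain ⟨hyY, hκy⟩ := Finset.mem_filter.1 hy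
    obtain ⟨hyc, n, hyn, hzz⟩ := (hYmem y).1 hyY
    obtain ⟨n', hyn', hnn', hzz'⟩ := hsec y n hyn hzz
    have hin : ∀ m (hym : G.Adj y m), z ⟨s(y, m), hym⟩ ≠ 0 →
        m ∈ {m | G.Adj y m ∧ c m = κ y ∧ ∃ y' ∈ W, y' ≠ y ∧ h y ≤ h y' ∧ G.Adj y' m} := by
      intro m hym hzm
      refine ⟨hym, D.label (hadj y m hym hzm) hyc hκy, ?_⟩
      obtain ⟨y', hy'Y, hy'y, hy'm⟩ := hstep y m hym hzm hyc
      refine ⟨y', hYW y' hy'Y, hy'y, ?_, hy'm⟩
      by_cases hκy' : κ y' = 0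
      · exact D.hmax y' (hYW y' hy'Y) hκy' y (hYW y hyY)
      · exact hmin y' (Finset.mem_filter.2 ⟨hy'Y, hκy'⟩)
    have h1 := D.hcnt y (hYW y hyY) hκy
    have h2 : ({n, n'} : Set V).ncard ≤ cnt G c W h y (κ y) := by
      apply Set.ncard_le_ncard _ (Set.toFinite _)
      rintro m (rfl | rfl)
      · exact hin _ hyn hzz
      · exact hin _ hyn' hzz'
    rw [Set.ncard_pair hnn'.symm] at h2
    omega
  · push Not at hlab
    obtain ⟨e, he⟩ := Function.ne_iff.1 hne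
    obtain ⟨e, hem⟩ := e
    induction e using Sym2.ind with
    | _ a b =>
      have he : z ⟨s(a, b), hem⟩ ≠ 0 := he
      have hab : G.Adj a b := hem
      have hY : Y.Nonempty := by
        by_cases ha : c a = 0
        · exact ⟨a, (hYmem a).2 ⟨ha, b, hab, he⟩⟩
        · refine ⟨b, (hYmem b).2 ⟨D.other (hadj a b hab he) ha, a, hab.symm, ?_⟩⟩
          rw [hswap a b hab]
          exact he
      obtain ⟨y, hy⟩ := hY
      obtain ⟨hyc, n, hyn, hzz⟩ := (hYmem y).1 hy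
      obtain ⟨y', hy', hyy', -⟩ := hstep y n hyn hzz hyc
      obtain ⟨hy'c, n', hyn', hzz'⟩ := (hYmem y').1 hy'
      have h1 := (hx0 y n hyn hzz hyc (hlab y hy)).1
      have h2 := (hx0 y' n' hyn' hzz' hy'c (hlab y' hy')).1
      exact hyy' (h2.trans h1.symm)

end Pool.Agent.Helper27.TC
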