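import Mathlib
import Pool.Agent.Helper27.TC.Face

set_option autoImplicit false

namespace Pool.Agent.Helper27.TC

open SimpleGraph Pool.Agent.Helper65.TT Pool.Agent.Helper65.TT.Planar

variable {V : Type*}
variable (G : SimpleGraph V) (σ : Equiv.Perm G.Dart)
variable [Fintype V] [DecidableEq V] [DecidableRel G.Adj]

/-- the class of the face of a dart -/
def clsD (H : SimpleGraph V) (U : Set V) (d : G.Dart) : ClsH G σ H U := Quotient.mk _ (face G σ d)

open Classical in
/-- the corners of a class of faces at the vertices of label `0` in `U` -/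
noncomputable def corners (κ : V → Fin 3) (U : Set V) (q : ClsH G σ (reduced G κ) U) :
    Finset G.Dart :=
  Finset.univ.filter fun d => (d.fst ∈ U ∧ κ d.fst = 0) ∧ clsD G σ (reduced G κ) U d = q

lemma two_corners (hσ : IsRotationSystem G σ) (hcon : G.Connected)
    {c κ : V → Fin 3} {W : Finset V} {h : V → ℕ} (D : Lab G c κ W h)
    (hfree : ∀ x, c x = 0 → x ∉ W → IsFree G σ c x) (U : Set V)
    (hcl : 2 ≤ Nat.card (ClsH G σ (reduced G κ) U)) (q : ClsH G σ (reduced G κ) U) :
    2 ≤ (corners G σ κ U q).card := by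
  classical
  by_contra hlt
  push Not at hlt
  have : Fintype (ClsH G σ (reduced G κ) U) := Fintype.ofFinite _
  let s : ClsH G σ (reduced G κ) U → ZMod 2 := Pi.single q 1
  let z : G.edgeSet → ZMod 2 := bdH G σ (reduced G κ) U s
  have hzd : ∀ d : G.Dart, z ⟨d.edge, d.edge_mem⟩ =
      s (clsD G σ (reduced G κ) U d) + s (clsD G σ (reduced G κ) U (σ d)) := by
    intro d
    have h1 := bdH_apply G σ (reduced G κ) U s d
    rw [face_symm] at h1
    exact h1
  have hs1 : s q = 1 := Pi.single_eq_same _ _
  have hs0 : ∀ q', q' ≠ q → s q' = 0 := fun q' hq' => Pi.single_eq_of_ne hq' _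
  have hz : bd1 G z = 0 := bd1_bd2 G σ hσ _
  have hne : z ≠ 0 := by
    intro h0
    rw [Nat.card_eq_fintype_card] at hcl
    obtain ⟨q', hq'⟩ := Fintype.exists_ne_of_one_lt_card (by omega) q
    have h1 : bd2 G σ (fun f => s (Quotient.mk _ f)) = 0 := h0
    obtain ⟨f, hf⟩ := Quotient.exists_rep q
    obtain ⟨f', hf'⟩ := Quotient.exists_rep q'
    have h3 := ker_bd2 G σ hσ hcon _ h1 f f'
    have h3 : s (Quotient.mk _ f) = s (Quotient.mk _ f') := h3
    rw [hf, hf', hs1, hs0 _ hq'] at h3
    exact one_ne_zero h3
  have hPP : ∀ e : G.edgeSet, z e ≠ 0 → PP (reduced G κ) U e.1 := by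
    rintro ⟨e, he⟩ hze
    by_contra hno
    apply hze
    induction e using Sym2.ind with
    | _ a b => exact bdH_outside G σ (reduced G κ) U _ ⟨(a, b), he⟩ hno
  have hsupp : ∀ e : G.edgeSet, z e ≠ 0 → e.1 ∈ (reduced G κ).edgeSet := fun e he => (hPP e he).1
  have hmem : ∀ d, d ∈ corners G σ κ U q ↔ (d.fst ∈ U ∧ κ d.fst = 0) ∧ clsD G σ (reduced G κ) U d = q := by
    intro d
    simp only [corners, Finset.mem_filter, Finset.mem_univ, true_and]
  -- an edge of `z` at a vertex of label `0` gives a corner
  have hcor : ∀ d : G.Dart, z ⟨d.edge, d.edge_mem⟩ ≠ 0 → κ d.fst = 0 →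
      d ∈ corners G σ κ U q ∨ σ d ∈ corners G σ κ U q := by
    intro d hzz hκd
    have hdU : d.fst ∈ U := (hPP _ hzz).2 d.fst (Sym2.mem_mk_left d.fst d.snd)
    by_contra hno
    push Not at hno
    apply hzz
    rw [hzd]
    have h1 : clsD G σ (reduced G κ) U d ≠ q := fun h1 => hno.1 ((hmem d).2 ⟨⟨hdU, hκd⟩, h1⟩)
    have h2 : clsD G σ (reduced G κ) U (σ d) ≠ q := fun h2 =>
      hno.2 ((hmem _).2 ⟨⟨by rw [hσ.1]; exact hdU, by rw [hσ.1]; exact hκd⟩, h2⟩)
    rw [hs0 _ h1, hs0 _ h2, add_zero]
  rcases Nat.lt_or_ge (corners G σ κ U q).card 1 with h1 | h1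
  · -- no corner
    have hemp : corners G σ κ U q = ∅ := Finset.card_eq_zero.1 (by omega)
    obtain ⟨v0⟩ := hcon.nonempty
    apply noz G D z hz hne hsupp v0
    intro y n hyn hzz _ hκy
    exfalso
    rcases hcor ⟨(y, n), hyn⟩ hzz hκy with h2 | h2 <;> rw [hemp] at h2 <;> simp at h2
  · obtain ⟨e, he⟩ := Finset.card_eq_one.1 (show (corners G σ κ U q).card = 1 by omega)
    have hee : (e.fst ∈ U ∧ κ e.fst = 0) ∧ clsD G σ (reduced G κ) U e = q := by
      rw [← hmem, he]
      exact Finset.mem_singleton_self e
    have hone : ∀ d, d ∈ corners G σ κ U q → d = e := by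
      intro d hd
      rw [he] at hd
      exact Finset.mem_singleton.1 hd
    set x := e.fst with hx
    have hcx : c x = 0 := by
      by_contra hcx
      rw [D.hκ x hcx] at hee
      exact hcx hee.1.2
    -- the vertex of label `0` of an edge of `z` is `x`
    have hyx : ∀ y n (hyn : G.Adj y n), z ⟨s(y, n), hyn⟩ ≠ 0 → κ y = 0 → y = x := by
      intro y n hyn hzz hκy
      rcases hcor ⟨(y, n), hyn⟩ hzz hκy with h2 | h2
      · rw [hx, ← hone _ h2]
      · have h3 := hone _ h2
        rw [hx, ← h3, hσ.1]
    by_cases hxW : x ∈ W ∧ c (σ.symm e).snd = c e.snd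
    · exact noz G D z hz hne hsupp x (fun y n hyn hzz _ hκy => ⟨hyx y n hyn hzz hκy, hxW.1⟩)
    · -- the classes alternate at the corner
      have hfst : (σ.symm e).fst = x := by
        have h2 := hσ.1 (σ.symm e)
        rw [Equiv.apply_symm_apply] at h2
        exact h2.symm
      have halt : c (σ.symm e).snd ≠ c e.snd := by
        by_cases hxW' : x ∈ W
        · exact fun h2 => hxW ⟨hxW', h2⟩
        · have h3 := (hfree x hcx hxW').2.2 (σ.symm e) hfst
          rw [Equiv.apply_symm_apply] at h3
          exact h3.symm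
      have hσe : σ e ≠ e := by
        intro h2
        apply halt
        rw [(Equiv.symm_apply_eq σ).2 h2.symm]
      -- `z` at the edge of `e`
      have hze : z ⟨e.edge, e.edge_mem⟩ = 1 := by
        rw [hzd, hee.2, hs1, hs0, add_zero]
        intro h2
        apply hσe
        apply hone
        rw [hmem, hσ.1]
        exact ⟨hee.1, h2⟩
      set i := c e.snd with hi
      have hi0 : i ≠ 0 := by
        intro h2
        exact D.hc x e.snd e.adj (hcx.trans h2.symm)
      let M : Finset V := Finset.univ.filter fun v => c v = i ∨ (c v = 0 ∧ κ v = i)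
      have hM : ∀ v, v ∈ M ↔ c v = i ∨ (c v = 0 ∧ κ v = i) := by
        intro v
        simp [M]
      have hsum := sum_bd1_on G M z
      rw [hz] at hsum
      simp only [Pi.zero_apply, Finset.sum_const_zero] at hsum
      have hes : e.symm ∈ Finset.univ.filter fun d : G.Dart => d.fst ∈ M ∧ d.snd ∉ M := by
        rw [Finset.mem_filter]
        refine ⟨Finset.mem_univ _, (hM _).2 (Or.inl hi.symm), ?_⟩
        show x ∉ M
        rw [hM]
        rintro (h2 | ⟨_, h2⟩)
        · exact hi0 (h2.symm.trans hcx)
        · exact hi0 (h2.symm.trans hee.1.2)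
      have hval : (⟨e.symm.edge, e.symm.edge_mem⟩ : G.edgeSet) = ⟨e.edge, e.edge_mem⟩ :=
        Subtype.ext e.edge_symm
      rw [Finset.sum_eq_single e.symm] at hsum
      · rw [hval, hze] at hsum
        exact zero_ne_one hsum
      · intro d hd hde
        obtain ⟨_, hd1, hd2⟩ := Finset.mem_filter.1 hd
        by_contra hzd0
        apply hde
        have hadj : (reduced G κ).Adj d.fst d.snd := hsupp _ hzd0
        have hzd' : z ⟨d.symm.edge, d.symm.edge_mem⟩ ≠ 0 := by
          have : (⟨d.symm.edge, d.symm.edge_mem⟩ : G.edgeSet) = ⟨d.edge, d.edge_mem⟩ :=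
            Subtype.ext d.edge_symm
          rw [this]
          exact hzd0
        rcases (hM _).1 hd1 with h2 | ⟨h2, h3⟩
        · -- the start of `d` has class `i`
          have hd0 : c d.snd = 0 := D.other hadj (by rw [h2]; exact hi0)
          have hκd : κ d.snd = 0 := by
            by_contra hκd
            apply hd2
            rw [hM]
            right
            refine ⟨hd0, ?_⟩
            rw [← D.label hadj.symm hd0 hκd]
            exact h2
          rcases hcor d.symm hzd' hκd with h4 | h4
          · rw [← Dart.symm_symm d, hone _ h4]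
          · exfalso
            have h5 := hone _ h4
            have h6 : d.symm = σ.symm e := by rw [← h5, Equiv.symm_apply_apply]
            apply halt
            rw [← h6]
            exact h2
        · exfalso
          apply hd2
          rw [hM]
          left
          rw [D.label hadj h2 (by rw [h3]; exact hi0), h3]
      · intro h2
        exact absurd hes h2

lemma two_mul_cls_le (hσ : IsRotationSystem G σ) (hcon : G.Connected)
    {c κ : V → Fin 3} {W : Finset V} {h : V → ℕ} (D : Lab G c κ W h)
    (hfree : ∀ x, c x = 0 → x ∉ W → IsFree G σ c x) (U : Finset V)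
    (hcl : 2 ≤ Nat.card (ClsH G σ (reduced G κ) (U : Set V))) :
    2 * Nat.card (ClsH G σ (reduced G κ) (U : Set V)) ≤
      ∑ x ∈ U.filter (fun x => κ x = 0), (G.neighborSet x).ncard := by
  classical
  have : Fintype (ClsH G σ (reduced G κ) (U : Set V)) := Fintype.ofFinite _
  have h1 : ∑ _q : ClsH G σ (reduced G κ) (U : Set V), 2 ≤
      ∑ q, (corners G σ κ (U : Set V) q).card :=
    Finset.sum_le_sum fun q _ => two_corners G σ hσ hcon D hfree (U : Set V) hcl q
  rw [Finset.sum_const, Finset.card_univ, smul_eq_mul] at h1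
  rw [Nat.card_eq_fintype_card, mul_comm]
  refine h1.trans ?_
  have h2 : ∑ q, (corners G σ κ (U : Set V) q).card =
      (Finset.univ.filter fun d : G.Dart => d.fst ∈ U ∧ κ d.fst = 0).card := by
    rw [Finset.card_eq_sum_card_fiberwise
      (f := fun d => clsD G σ (reduced G κ) (U : Set V) d) (t := Finset.univ)
      (fun _ _ => Finset.mem_coe.2 (Finset.mem_univ _))]
    apply Finset.sum_congr rfl
    intro q _
    congr 1
    ext d
    simp only [corners, Finset.mem_filter, Finset.mem_univ, true_and, Finset.mem_coe]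
  rw [h2]
  have h3 : (Finset.univ.filter fun d : G.Dart => d.fst ∈ U ∧ κ d.fst = 0).card =
      ∑ x ∈ U.filter (fun x => κ x = 0),
        (Finset.univ.filter fun d : G.Dart => d.fst = x).card := by
    rw [Finset.card_eq_sum_card_fiberwise (f := fun d : G.Dart => d.fst)
      (t := U.filter (fun x => κ x = 0))]
    · apply Finset.sum_congr rfl
      intro x hx
      congr 1
      ext d
      simp only [Finset.mem_filter, Finset.mem_univ, true_and]
      constructor
      · exact fun h => h.2
      · intro hd
        refine ⟨?_, hd⟩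
        rw [hd]
        exact Finset.mem_filter.1 hx
    · intro d hd
      have := (Finset.mem_filter.1 (Finset.mem_coe.1 hd)).2
      exact Finset.mem_coe.2 (Finset.mem_filter.2 this)
  rw [h3]
  apply Finset.sum_le_sum
  intro x _
  have h4 : (Finset.univ.filter fun d : G.Dart => d.fst = x).card ≤ (G.neighborSet x).ncard := by
    rw [← Set.ncard_coe_finset]
    apply Set.ncard_le_ncard_of_injOn (fun d : G.Dart => d.snd)
    · intro d hd
      have hd : d.fst = x := (Finset.mem_filter.1 (Finset.mem_coe.1 hd)).2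
      show G.Adj x d.snd
      rw [← hd]
      exact d.adj
    · intro d hd d' hd' hdd
      have hd : d.fst = x := (Finset.mem_filter.1 (Finset.mem_coe.1 hd)).2
      have hd' : d'.fst = x := (Finset.mem_filter.1 (Finset.mem_coe.1 hd')).2
      apply Dart.ext
      exact Prod.ext (hd.trans hd'.symm) hdd
  exact h4

end Pool.Agent.Helper27.TC
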