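import Mathlib
import Pool.Agent.Helper27.TC.Corner

set_option autoImplicit false

namespace Pool.Agent.Helper27.TC

open SimpleGraph Pool.Agent.Helper65.TT Pool.Agent.Helper65.TT.Planar

/-- Choosability passes to subgraphs. -/
theorem TwoTwoChoosable.of_hom {V V₀ : Type*} {G : SimpleGraph V} {G₀ : SimpleGraph V₀}
    (h : TwoTwoChoosable G) (φ : G₀ →g G) (hφ : Function.Injective φ) : TwoTwoChoosable G₀ := by
  classical
  rintro α L ⟨C₁, C₂, hdisj, hun, hL⟩
  by_cases hV : Nonempty V₀
  swap
  · exact ⟨fun v => absurd ⟨v⟩ hV, fun v => absurd ⟨v⟩ hV, fun v => absurd ⟨v⟩ hV⟩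
  obtain ⟨w0⟩ := hV
  let ψ : V → V₀ := fun v => if h : ∃ w, φ w = v then h.choose else w0
  have hψ : ∀ w, ψ (φ w) = w := by
    intro w
    have h1 : ∃ w', φ w' = φ w := ⟨w, rfl⟩
    have h2 : ψ (φ w) = h1.choose := dif_pos h1
    rw [h2]
    exact hφ h1.choose_spec
  obtain ⟨f, hf1, hf2⟩ := h α (fun v => L (ψ v)) ⟨C₁, C₂, hdisj, by
    rw [← hun]
    apply Set.Subset.antisymm
    · exact Set.iUnion_subset fun v => Set.subset_iUnion (fun w => (L w : Set α)) (ψ v)
    · apply Set.iUnion_subset
      intro w
      have h3 := Set.subset_iUnion (fun v => (L (ψ v) : Set α)) (φ w)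
      simp only [hψ] at h3
      exact h3, fun v => hL (ψ v)⟩
  refine ⟨fun w => f (φ w), ?_, ?_⟩
  · intro w
    have := hf1 (φ w)
    rwa [hψ] at this
  · intro u v huv
    exact hf2 _ _ (φ.map_adj huv)

variable {V : Type*} [Fintype V]

/-- The criterion for plane graphs. -/
theorem plane_criterion (G : SimpleGraph V) (hcon : G.Connected) (σ : Equiv.Perm G.Dart)
    (hσ : IsRotationSystem G σ) (he : Nat.card V + numFaces G σ = G.edgeSet.ncard + 2)
    (c : V → Fin 3) (hc : ∀ u v, G.Adj u v → c u ≠ c v)
    (hex : ∀ S : Finset V, Thick G c S → (∀ x ∈ S, ¬ IsFree G σ c x) →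
      ∑ x ∈ S, ((G.neighborSet x).ncard - 4) ≤ 5) : TwoTwoChoosable G := by
  classical
  let W : Finset V := Finset.univ.filter fun v => c v = 0 ∧ ¬ IsFree G σ c v
  have hW : ∀ x, x ∈ W ↔ c x = 0 ∧ ¬ IsFree G σ c x := by
    intro x
    simp [W]
  obtain ⟨j, h, h1, h2, h3⟩ := elim G c (fun x => (G.neighborSet x).ncard - 4) 5 W
    (fun x hx => ((hW x).1 hx).1) (fun S hS hT => hex S hT fun x hx => ((hW x).1 (hS hx)).2)
  let κ : V → Fin 3 := fun v => if c v = 0 then (if v ∈ W then j v else 0) else c v
  have hκ1 : ∀ v, c v ≠ 0 → κ v = c v := fun v hv => if_neg hv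
  have hκ2 : ∀ v, c v = 0 → v ∈ W → κ v = j v := fun v hv hvW => by
    simp only [κ, hv, if_true, hvW]
  have hκ3 : ∀ v, c v = 0 → v ∉ W → κ v = 0 := fun v hv hvW => by
    simp only [κ, hv, if_true, hvW, if_false]
  have D : Lab G c κ W h := by
    refine ⟨hc, fun x hx => ((hW x).1 hx).1, hκ1, ?_, ?_, ?_⟩
    · intro x hx hκx
      by_contra hxW
      exact hκx (hκ3 x hx hxW)
    · intro y hy hκy
      rw [hκ2 y ((hW y).1 hy).1 hy] at hκy ⊢
      exact h1 y hy hκy
    · intro y hy hκy
      rw [hκ2 y ((hW y).1 hy).1 hy] at hκy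
      exact h2 y hy hκy
  have hfree : ∀ x, c x = 0 → x ∉ W → IsFree G σ c x := by
    intro x hx hxW
    by_contra hno
    exact hxW ((hW x).2 ⟨hx, hno⟩)
  have hdec : DecidableRel G.Adj := Classical.decRel _
  apply general G κ
  · refine ⟨Coloring.mk (fun v => if c v = 0 then 0 else 1) ?_⟩
    intro u v huv
    by_cases hu : c u = 0
    · rw [if_pos hu, if_neg (D.other' huv hu)]
      decide
    · rw [if_neg hu, if_pos (D.other huv hu)]
      decide
  · intro U
    set f := (U.filter (fun x => κ x = 0)).card with hf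
    set r := (U.filter (fun x => κ x ≠ 0)).card with hr
    have hfr : f + r = U.card := Finset.card_filter_add_card_filter_not _
    have hwt : (∑ v ∈ U, if κ v = 0 then 3 else 1) = 3 * f + r := by
      rw [← Finset.sum_filter_add_sum_filter_not U (fun x => κ x = 0)]
      congr 1
      · rw [hf, mul_comm, ← smul_eq_mul, ← Finset.sum_const]
        apply Finset.sum_congr rfl
        intro v hv
        rw [if_pos (Finset.mem_filter.1 hv).2]
      · rw [hr, Finset.card_eq_sum_ones]
        apply Finset.sum_congr rfl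
        intro v hv
        rw [if_neg (Finset.mem_filter.1 hv).2]
    rw [hwt]
    by_cases hU : U.Nonempty
    swap
    · rw [Finset.not_nonempty_iff_eq_empty] at hU
      have h4 : edgesIn (reduced G κ) ((U : Finset V) : Set V) = 0 := by
        have h6 : {e ∈ (reduced G κ).edgeSet | ∀ v ∈ e, v ∈ ((U : Finset V) : Set V)} = ∅ := by
          ext e
          simp only [hU, Set.mem_ofPred_eq, Finset.coe_empty, Set.mem_empty_iff_false, iff_false,
            not_and]
          intro _ h5
          induction e using Sym2.ind with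
          | _ a b => exact h5 a (Sym2.mem_mk_left a b)
        rw [edgesIn, h6, Set.ncard_empty]
      rw [h4]
      exact Nat.zero_le _
    by_cases hface : Nonempty (Face G σ)
    swap
    · have h4 : edgesIn (reduced G κ) ((U : Finset V) : Set V) = 0 := by
        have h6 : {e ∈ (reduced G κ).edgeSet | ∀ v ∈ e, v ∈ ((U : Finset V) : Set V)} = ∅ := by
          ext e
          simp only [Set.mem_ofPred_eq, Set.mem_empty_iff_false, iff_false, not_and]
          intro h5
          exfalso
          induction e using Sym2.ind with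
          | _ a b => exact hface ⟨face G σ ⟨(a, b), h5.1⟩⟩
        rw [edgesIn, h6, Set.ncard_empty]
      rw [h4]
      exact Nat.zero_le _
    have hex' := exact_of_euler G σ hσ hcon he
    have hHG : reduced G κ ≤ G := fun u v huv => huv.1
    have h4 := card_edges_H_le G σ (reduced G κ) (U : Set V) hσ hHG hex'
      (by rw [Finset.coe_nonempty]; exact hU) hface
    rw [Set.ncard_coe_finset, ← hfr] at h4
    by_cases hcl : 2 ≤ Nat.card (ClsH G σ (reduced G κ) (U : Set V))
    · have h5 := two_mul_cls_le G σ hσ hcon D hfree U hcl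
      have h6 : ∑ x ∈ U.filter (fun x => κ x = 0), (G.neighborSet x).ncard ≤ 4 * f + 5 := by
        have h7 : ∑ x ∈ U.filter (fun x => κ x = 0), (G.neighborSet x).ncard ≤
            ∑ x ∈ U.filter (fun x => κ x = 0), (4 + ((G.neighborSet x).ncard - 4)) := by
          apply Finset.sum_le_sum
          intro x _
          omega
        refine h7.trans ?_
        rw [Finset.sum_add_distrib, Finset.sum_const, smul_eq_mul, mul_comm 4]
        refine Nat.add_le_add_left ?_ _
        refine le_trans ?_ h3
        -- the free vertices do not contribute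
        rw [← Finset.sum_filter_add_sum_filter_not (U.filter (fun x => κ x = 0)) (fun x => x ∈ W)]
        have h8 : ∑ x ∈ (U.filter (fun x => κ x = 0)).filter (fun x => ¬ x ∈ W),
            ((G.neighborSet x).ncard - 4) = 0 := by
          apply Finset.sum_eq_zero
          intro x hx
          obtain ⟨k1, k2⟩ := Finset.mem_filter.1 hx
          have k3 := (Finset.mem_filter.1 k1).2
          have k4 : c x = 0 := by
            by_contra k5
            rw [hκ1 x k5] at k3
            exact k5 k3
          have := (hfree x k4 k2).2.1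
          omega
        rw [h8, add_zero]
        apply Finset.sum_le_sum_of_subset
        intro x hx
        obtain ⟨k1, k2⟩ := Finset.mem_filter.1 hx
        have k3 := (Finset.mem_filter.1 k1).2
        rw [hκ2 x ((hW x).1 k2).1 k2] at k3
        exact Finset.mem_filter.2 ⟨k2, k3⟩
      omega
    · omega

end Pool.Agent.Helper27.TC
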